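import Pool.Agent.Lib.MP_c3d375_an.Neg.H75.Mean

/-!
# The perturbed Berger-Kato positivity and the kernel inequality, abstract form
-/

open Complex Metric Set Filter Topology MeasureTheory ComplexConjugate
open Pool.Agent.Lib.MP_c3d375_an (ee ee_zero ee_add norm_ee continuous_ee conj_ee ee_natCast integral_ee)

namespace C3N.H75

section

variable {H : Type*} [NormedAddCommGroup H] [InnerProductSpace ℂ H] [CompleteSpace H]

/-- real mean -/
noncomputable def ravg (f : ℝ → ℝ) : ℝ := (2 * Real.pi)⁻¹ * ∫ θ in (0 : ℝ)..2 * Real.pi, f θ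

theorem avg_ofReal' (F : ℝ → ℝ) : avg (fun θ => ((F θ : ℝ) : ℂ)) = ((ravg F : ℝ) : ℂ) := avg_ofReal F

theorem ravg_mono {f g : ℝ → ℝ} (hf : Continuous f) (hg : Continuous g) (h : ∀ θ, f θ ≤ g θ) :
    ravg f ≤ ravg g := by
  unfold ravg
  refine mul_le_mul_of_nonneg_left ?_ (by positivity)
  exact intervalIntegral.integral_mono (by positivity) (hf.intervalIntegrable _ _)
    (hg.intervalIntegrable _ _) h

theorem ravg_nonneg {f : ℝ → ℝ} (h : ∀ θ, 0 ≤ f θ) : 0 ≤ ravg f := by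
  unfold ravg
  exact mul_nonneg (by positivity) (intervalIntegral.integral_nonneg (by positivity) fun θ _ => h θ)

theorem ravg_const_mul (c : ℝ) (f : ℝ → ℝ) : ravg (fun θ => c * f θ) = c * ravg f := by
  unfold ravg
  rw [intervalIntegral.integral_const_mul]; ring

theorem ravg_add {f g : ℝ → ℝ} (hf : Continuous f) (hg : Continuous g) :
    ravg (fun θ => f θ + g θ) = ravg f + ravg g := by
  unfold ravg
  rw [intervalIntegral.integral_add (hf.intervalIntegrable _ _) (hg.intervalIntegrable _ _)]; ring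

theorem re_avg {F : ℝ → ℂ} (hF : Continuous F) : (avg F).re = ravg fun θ => (F θ).re := by
  have h := Complex.reCLM.intervalIntegral_comp_comm (hF.intervalIntegrable 0 (2 * Real.pi))
    (μ := volume)
  simp only [Complex.reCLM_apply] at h
  rw [avg, ravg, h, smul_eq_mul, show (2 * Real.pi : ℂ)⁻¹ = (((2 * Real.pi)⁻¹ : ℝ) : ℂ) by
    push_cast; rfl, Complex.re_ofReal_mul]

theorem norm_avg_le' {E : Type*} [NormedAddCommGroup E] [NormedSpace ℂ E] {F : ℝ → E}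
    {w : ℝ → ℝ} (hw : Continuous w) (h : ∀ θ, ‖F θ‖ ≤ w θ) : ‖avg F‖ ≤ ravg w :=
  norm_avg_le hw h

theorem aux_mul {s : ℂ} (hs : s ≠ 0) (t : ℝ) :
    (-((t : ℂ) * (conj s / ‖s‖))) * s = ((-(t * ‖s‖) : ℝ) : ℂ) := by
  have hn : (‖s‖ : ℂ) ≠ 0 := by simpa using hs
  have h7 : conj s * s = (‖s‖ : ℂ) ^ 2 := Complex.conj_mul' s
  push_cast
  rw [neg_mul, mul_assoc, div_mul_eq_mul_div, h7]
  field_simp

omit [CompleteSpace H] in
/-- Cauchy-Schwarz for an accretive operator, with a parameter -/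
theorem accretive_cs {A : H →L[ℂ] H} (hA : ∀ x, 0 ≤ (inner ℂ x (A x)).re) (n n' : H) {t : ℝ}
    (ht : 0 < t) : ‖inner ℂ n (A n') + inner ℂ (A n) n'‖ ≤
      t⁻¹ * (inner ℂ n (A n)).re + t * (inner ℂ n' (A n')).re := by
  set s := inner ℂ n (A n') + inner ℂ (A n) n' with hs
  by_cases hs0 : s = 0
  · rw [hs0, norm_zero]
    exact add_nonneg (mul_nonneg (inv_pos.2 ht).le (hA _)) (mul_nonneg ht.le (hA _))
  · have hn : (‖s‖ : ℂ) ≠ 0 := by simpa using hs0
    let l : ℂ := -(t * (conj s / ‖s‖))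
    have h1 := hA (n + l • n')
    have h2 : (inner ℂ (n + l • n') (A (n + l • n'))).re =
        (inner ℂ n (A n)).re + ‖l‖ ^ 2 * (inner ℂ n' (A n')).re + (l * s).re := by
      rw [map_add, map_smul, inner_add_left, inner_add_right, inner_add_right, inner_smul_left,
        inner_smul_left, inner_smul_right, inner_smul_right]
      have h3 : (conj l * inner ℂ n' (A n)).re = (l * inner ℂ (A n) n').re := by
        rw [← Complex.conj_re, map_mul, Complex.conj_conj, inner_conj_symm]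
      have h4 : conj l * (l * inner ℂ n' (A n')) = ((‖l‖ ^ 2 : ℝ) : ℂ) * inner ℂ n' (A n') := by
        rw [← mul_assoc, Complex.conj_mul']; push_cast; ring
      rw [h4, Complex.add_re, Complex.add_re, Complex.add_re, h3, Complex.re_ofReal_mul, hs, mul_add,
        Complex.add_re]
      ring
    have h5 : ‖l‖ = t := by
      simp only [l]
      rw [norm_neg, norm_mul, norm_div, RCLike.norm_conj, Complex.norm_real, Complex.norm_real,
        Real.norm_of_nonneg ht.le, norm_norm, div_self, mul_one]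
      simpa using hs0
    have h6 : (l * s).re = -(t * ‖s‖) := by
      have : l * s = ((-(t * ‖s‖) : ℝ) : ℂ) := aux_mul hs0 t
      rw [this, Complex.ofReal_re]
    rw [h2, h5, h6] at h1
    have h8 : t * ‖s‖ ≤ (inner ℂ n (A n)).re + t ^ 2 * (inner ℂ n' (A n')).re := by linarith
    have h9 : ‖s‖ = t⁻¹ * (t * ‖s‖) := by field_simp
    rw [h9]
    refine (mul_le_mul_of_nonneg_left h8 (inv_pos.2 ht).le).trans (le_of_eq ?_)
    field_simp

/-- optimisation in the parameter -/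
theorem opt_param {X K α β : ℝ} (hK : 0 ≤ K) (hα : 0 ≤ α) (hβ : 0 ≤ β)
    (h : ∀ t : ℝ, 0 < t → X ≤ K * (t⁻¹ * α + t * β)) : X ≤ 2 * K * √β * √α := by
  have key : ∀ ε : ℝ, 0 < ε → X ≤ 2 * K * √(β + ε) * √(α + ε) := by
    intro ε hε
    have hα' : 0 < √(α + ε) := Real.sqrt_pos.2 (by linarith)
    have hβ' : 0 < √(β + ε) := Real.sqrt_pos.2 (by linarith)
    have h1 := h (√(α + ε) / √(β + ε)) (by positivity)
    refine h1.trans ?_
    have e1 : √(α + ε) ^ 2 = α + ε := Real.sq_sqrt (by linarith)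
    have e2 : √(β + ε) ^ 2 = β + ε := Real.sq_sqrt (by linarith)
    have h2 : (√(α + ε) / √(β + ε))⁻¹ * α ≤ √(β + ε) * √(α + ε) := by
      rw [inv_div, div_mul_eq_mul_div, div_le_iff₀ hα', mul_assoc, ← sq, e1]
      exact mul_le_mul_of_nonneg_left (by linarith) hβ'.le
    have h3 : √(α + ε) / √(β + ε) * β ≤ √(β + ε) * √(α + ε) := by
      rw [div_mul_eq_mul_div, div_le_iff₀ hβ', mul_comm (√(β + ε)), mul_assoc, ← sq, e2]
      exact mul_le_mul_of_nonneg_left (by linarith) hα'.le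
    calc K * ((√(α + ε) / √(β + ε))⁻¹ * α + √(α + ε) / √(β + ε) * β)
        ≤ K * (√(β + ε) * √(α + ε) + √(β + ε) * √(α + ε)) := by gcongr
      _ = _ := by ring
  have hlim : Tendsto (fun ε : ℝ => 2 * K * √(β + ε) * √(α + ε)) (𝓝[>] 0)
      (𝓝 (2 * K * √(β + 0) * √(α + 0))) := by
    refine Tendsto.mono_left ?_ nhdsWithin_le_nhds
    have : Continuous fun ε : ℝ => 2 * K * √(β + ε) * √(α + ε) := by fun_prop
    exact this.tendsto 0
  rw [add_zero, add_zero] at hlim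
  exact ge_of_tendsto hlim (eventually_nhdsWithin_of_forall fun ε hε => key ε hε)

/-- the data: `N θ = ζ χ'(ζ) (χ(ζ) - T)⁻¹` -/
structure NF (a e c1 c2 : ℝ) (S B : H →L[ℂ] H) (N : ℝ → H →L[ℂ] H) : Prop where
  cont : Continuous N
  nn : ∀ θ x, 0 ≤ (inner ℂ x (N θ x)).re
  e1 : ∀ θ, ‖N θ - rz S θ‖ ≤ c1
  e2 : ∀ θ, ‖N θ - rz S θ - ((e : ℂ) * kr a θ) • B‖ ≤ c2

/-- the weight `2 Re h` -/
noncomputable def ww (h : ℂ → ℂ) (θ : ℝ) : ℝ := 2 * (h (ee 1 θ)).re

/-- the form `Re ⟨M_h x, x⟩` -/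
noncomputable def cN (N : ℝ → H →L[ℂ] H) (h : ℂ → ℂ) (x : H) : ℝ :=
  ravg fun θ => ww h θ * (inner ℂ x (N θ x)).re

variable {a e c1 c2 r : ℝ} {S B : H →L[ℂ] H} {N : ℝ → H →L[ℂ] H} {h : ℂ → ℂ}

theorem ww_coe (h : ℂ → ℂ) (θ : ℝ) : ((ww h θ : ℝ) : ℂ) = h (ee 1 θ) + conj (h (ee 1 θ)) := by
  rw [ww, Complex.add_conj]

theorem continuous_ww (hr : 1 < r) (hh : DifferentiableOn ℂ h (ball 0 r)) : Continuous (ww h) :=
  continuous_const.mul (Complex.continuous_re.comp (continuous_eval_ee hr hh))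

theorem ww_nonneg (hpos : ∀ z ∈ closedBall (0 : ℂ) 1, 0 ≤ (h z).re) (θ : ℝ) : 0 ≤ ww h θ := by
  have := hpos (ee 1 θ) (by rw [mem_closedBall_zero_iff, norm_ee])
  unfold ww; linarith

theorem ravg_ww (hr : 1 < r) (hh : DifferentiableOn ℂ h (ball 0 r)) :
    ravg (ww h) = 2 * (h 0).re := by
  have h1 := mean_h hr hh
  have h2 : ravg (fun θ => (h (ee 1 θ)).re) = (h 0).re := by
    rw [← re_avg (continuous_eval_ee hr hh), h1]
  have h3 : ww h = fun θ => 2 * (fun θ => (h (ee 1 θ)).re) θ := rfl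
  rw [h3, ravg_const_mul, h2]

theorem continuous_ww_coe (hr : 1 < r) (hh : DifferentiableOn ℂ h (ball 0 r)) :
    Continuous fun θ => ((ww h θ : ℝ) : ℂ) := Complex.continuous_ofReal.comp (continuous_ww hr hh)

omit [CompleteSpace H] in
theorem cN_nonneg (hN : NF a e c1 c2 S B N) (hpos : ∀ z ∈ closedBall (0 : ℂ) 1, 0 ≤ (h z).re)
    (x : H) : 0 ≤ cN N h x :=
  ravg_nonneg fun θ => mul_nonneg (ww_nonneg hpos θ) (hN.nn θ x)

/-- the evaluation functional `A ↦ ⟨x, A y⟩` -/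
noncomputable def evl (x y : H) : (H →L[ℂ] H) →L[ℂ] ℂ :=
  (innerSL ℂ x).comp (ContinuousLinearMap.apply ℂ H y)

omit [CompleteSpace H] in
theorem evl_apply (x y : H) (A : H →L[ℂ] H) : evl x y A = inner ℂ x (A y) := rfl

theorem inner_avg (x y : H) {F : ℝ → H →L[ℂ] H} (hF : Continuous F) :
    inner ℂ x (avg F y) = avg fun θ => inner ℂ x (F θ y) := by
  rw [← evl_apply, ← avg_clm (evl x y) hF]; rfl

omit [CompleteSpace H] in
theorem continuous_inner_N (hN : NF a e c1 c2 S B N) (x y : H) :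
    Continuous fun θ => inner ℂ x (N θ y) := (evl x y).continuous.comp hN.cont

theorem cN_eq (hN : NF a e c1 c2 S B N) (hr : 1 < r) (hh : DifferentiableOn ℂ h (ball 0 r)) (x : H) :
    (inner ℂ x (avg (fun θ => ((ww h θ : ℝ) : ℂ) • N θ) x)).re = cN N h x := by
  have hw := continuous_ww_coe hr hh
  rw [inner_avg x x (F := fun θ => ((ww h θ : ℝ) : ℂ) • N θ) (hw.smul hN.cont), re_avg]
  · rw [cN]
    congr 1
    funext θ
    rw [show (((ww h θ : ℝ) : ℂ) • N θ) x = ((ww h θ : ℝ) : ℂ) • (N θ x) from rfl,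
      inner_smul_right, Complex.re_ofReal_mul]
  · exact (evl x x).continuous.comp (hw.smul hN.cont)

theorem norm_avg_ww_le (hr : 1 < r) (hh : DifferentiableOn ℂ h (ball 0 r)) {F : ℝ → H →L[ℂ] H} {c : ℝ}
    (hF : ∀ θ, ‖F θ‖ ≤ c * ww h θ) : ‖avg F‖ ≤ c * (2 * (h 0).re) := by
  have h1 := norm_avg_le' (w := fun θ => c * ww h θ) (continuous_const.mul (continuous_ww hr hh)) hF
  rwa [ravg_const_mul, ravg_ww hr hh] at h1

theorem mean_main (hS : SR S) (hr : 1 < r) (hh : DifferentiableOn ℂ h (ball 0 r)) (ha0 : 0 ≤ a)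
    (ha : a < 1) :
    avg (fun θ => ((ww h θ : ℝ) : ℂ) • (rz S θ + ((e : ℂ) * kr a θ) • B)) =
      phi S h + conj (h 0) • (1 : H →L[ℂ] H) + ((a : ℂ) * e * conj (deriv h a)) • B := by
  have hw := continuous_ww_coe hr hh
  have hR := continuous_rz hS
  have hk := continuous_kr ha0 ha
  have e1 : ∀ θ, ((ww h θ : ℝ) : ℂ) • (rz S θ + ((e : ℂ) * kr a θ) • B) =
      (h (ee 1 θ) + conj (h (ee 1 θ))) • rz S θ +
        (e : ℂ) • (((h (ee 1 θ) + conj (h (ee 1 θ))) * kr a θ) • B) := by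
    intro θ
    rw [ww_coe, smul_add, smul_smul, smul_smul]
    congr 2
    ring
  rw [avg_congr e1, avg_add (F := fun θ => (h (ee 1 θ) + conj (h (ee 1 θ))) • rz S θ)
    (G := fun θ => (e : ℂ) • (((h (ee 1 θ) + conj (h (ee 1 θ))) * kr a θ) • B)), mean_rz hS hr hh,
    avg_smul, avg_smul_const, mean_kr hr hh ha0 ha, smul_smul]
  · congr 2
    ring
  · have : Continuous fun θ => h (ee 1 θ) + conj (h (ee 1 θ)) := by
      simp_rw [← ww_coe]; exact hw
    exact this.smul hR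
  · have : Continuous fun θ => h (ee 1 θ) + conj (h (ee 1 θ)) := by
      simp_rw [← ww_coe]; exact hw
    exact ((this.mul hk).smul (continuous_const : Continuous fun _ : ℝ => B)).const_smul (e : ℂ)

/-- the upper bound of the form -/
theorem cN_le (hS : SR S) (hN : NF a e c1 c2 S B N) (hr : 1 < r)
    (hh : DifferentiableOn ℂ h (ball 0 r)) (hpos : ∀ z ∈ closedBall (0 : ℂ) 1, 0 ≤ (h z).re)
    (ha0 : 0 ≤ a) (ha : a < 1) (x : H) :
    cN N h x ≤ (inner ℂ x (phi S h x)).re + (h 0).re * ‖x‖ ^ 2 +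
      ((a : ℂ) * e * conj (deriv h a) * inner ℂ x (B x)).re + c2 * (2 * (h 0).re) * ‖x‖ ^ 2 := by
  have hw := continuous_ww_coe hr hh
  have hR := continuous_rz hS
  have hk := continuous_kr ha0 ha
  have hG : Continuous fun θ => ((ww h θ : ℝ) : ℂ) • (rz S θ + ((e : ℂ) * kr a θ) • B) :=
    hw.smul (hR.add ((continuous_const.mul hk).smul continuous_const))
  have h1 : avg (fun θ => ((ww h θ : ℝ) : ℂ) • N θ) -
      (phi S h + conj (h 0) • (1 : H →L[ℂ] H) + ((a : ℂ) * e * conj (deriv h a)) • B) =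
      avg fun θ => ((ww h θ : ℝ) : ℂ) • N θ - ((ww h θ : ℝ) : ℂ) • (rz S θ + ((e : ℂ) * kr a θ) • B) := by
    rw [avg_sub (F := fun θ => ((ww h θ : ℝ) : ℂ) • N θ)
      (G := fun θ => ((ww h θ : ℝ) : ℂ) • (rz S θ + ((e : ℂ) * kr a θ) • B)) (hw.smul hN.cont) hG,
      mean_main hS hr hh ha0 ha]
  have h2 : ‖avg (fun θ => ((ww h θ : ℝ) : ℂ) • N θ) -
      (phi S h + conj (h 0) • (1 : H →L[ℂ] H) + ((a : ℂ) * e * conj (deriv h a)) • B)‖ ≤
      c2 * (2 * (h 0).re) := by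
    rw [h1]
    refine norm_avg_ww_le hr hh fun θ => ?_
    rw [← smul_sub, norm_smul, Complex.norm_real, Real.norm_of_nonneg (ww_nonneg hpos θ), mul_comm,
      ← sub_sub]
    exact mul_le_mul_of_nonneg_right (hN.e2 θ) (ww_nonneg hpos θ)
  have h3 := cN_eq hN hr hh x
  set M := avg (fun θ => ((ww h θ : ℝ) : ℂ) • N θ)
  set M' := phi S h + conj (h 0) • (1 : H →L[ℂ] H) + ((a : ℂ) * e * conj (deriv h a)) • B with hM'
  have h4 : (inner ℂ x (M x)).re = (inner ℂ x (M' x)).re + (inner ℂ x ((M - M') x)).re := by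
    rw [show (M - M') x = M x - M' x from rfl, inner_sub_right, Complex.sub_re]; ring
  have h5 : (inner ℂ x ((M - M') x)).re ≤ c2 * (2 * (h 0).re) * ‖x‖ ^ 2 := by
    refine (Complex.re_le_norm _).trans ((norm_inner_le_norm _ _).trans ?_)
    have := (M - M').le_opNorm x
    have hx := norm_nonneg x
    nlinarith [mul_le_mul_of_nonneg_right h2 (mul_nonneg hx hx), mul_le_mul_of_nonneg_left this hx]
  have h6 : (inner ℂ x (M' x)).re = (inner ℂ x (phi S h x)).re + (h 0).re * ‖x‖ ^ 2 +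
      ((a : ℂ) * e * conj (deriv h a) * inner ℂ x (B x)).re := by
    have h7 : M' x = phi S h x + conj (h 0) • x + ((a : ℂ) * e * conj (deriv h a)) • B x := rfl
    rw [h7, inner_add_right, inner_add_right, inner_smul_right, inner_smul_right, Complex.add_re,
      Complex.add_re, inner_self_eq_norm_sq_to_K]
    congr 2
    change (conj (h 0) * (‖x‖ : ℂ) ^ 2).re = _
    rw [← Complex.ofReal_pow, Complex.re_mul_ofReal, Complex.conj_re]
  rw [← h3, h4, h6]
  linarith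

/-- the first operator of the kernel inequality -/
noncomputable def M1 (N : ℝ → H →L[ℂ] H) (h : ℂ → ℂ) (a : ℝ) : H →L[ℂ] H :=
  avg fun θ => (((ww h θ : ℝ) : ℂ) * (1 - a * ee 1 θ)⁻¹) • N θ

/-- the second operator of the kernel inequality -/
noncomputable def M2 (N : ℝ → H →L[ℂ] H) (h : ℂ → ℂ) (a : ℝ) : H →L[ℂ] H :=
  avg fun θ => (((ww h θ : ℝ) : ℂ) * (1 - a * ee (-1) θ)⁻¹) • N θ

theorem continuous_geom (ha0 : 0 ≤ a) (ha : a < 1) (k : ℤ) :
    Continuous fun θ => (1 - (a : ℂ) * ee k θ)⁻¹ :=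
  (continuous_const.sub (continuous_const.mul (continuous_ee _))).inv₀
    (one_sub_ee_ne (by rwa [abs_of_nonneg ha0]) k)

theorem kernel_ineq (hN : NF a e c1 c2 S B N) (hr : 1 < r)
    (hh : DifferentiableOn ℂ h (ball 0 r)) (hpos : ∀ z ∈ closedBall (0 : ℂ) 1, 0 ≤ (h z).re)
    (ha0 : 0 ≤ a) (ha : a < 1) (n n' : H) :
    ‖inner ℂ n (M1 N h a n') + inner ℂ (M2 N h a n) n'‖ ≤
      2 * (1 - a)⁻¹ * √(cN N h n') * √(cN N h n) := by
  have hw := continuous_ww_coe hr hh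
  have hw' := continuous_ww hr hh
  have hg1 := continuous_geom ha0 ha 1
  have hg2 := continuous_geom ha0 ha (-1)
  have i1 : inner ℂ n (M1 N h a n') =
      avg fun θ => ((ww h θ : ℝ) : ℂ) * (1 - a * ee 1 θ)⁻¹ * inner ℂ n (N θ n') := by
    rw [M1, inner_avg n n' (F := fun θ => (((ww h θ : ℝ) : ℂ) * (1 - a * ee 1 θ)⁻¹) • N θ)
      ((hw.mul hg1).smul hN.cont)]
    refine avg_congr fun θ => ?_
    rw [show ((((ww h θ : ℝ) : ℂ) * (1 - a * ee 1 θ)⁻¹) • N θ) n' =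
      (((ww h θ : ℝ) : ℂ) * (1 - a * ee 1 θ)⁻¹) • (N θ n') from rfl, inner_smul_right]
  have i2 : inner ℂ (M2 N h a n) n' =
      avg fun θ => ((ww h θ : ℝ) : ℂ) * (1 - a * ee 1 θ)⁻¹ * inner ℂ (N θ n) n' := by
    rw [← inner_conj_symm, M2, inner_avg n' n
      (F := fun θ => (((ww h θ : ℝ) : ℂ) * (1 - a * ee (-1) θ)⁻¹) • N θ)
      ((hw.mul hg2).smul hN.cont), ← avg_conj]
    refine avg_congr fun θ => ?_
    rw [show ((((ww h θ : ℝ) : ℂ) * (1 - a * ee (-1) θ)⁻¹) • N θ) n =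
      (((ww h θ : ℝ) : ℂ) * (1 - a * ee (-1) θ)⁻¹) • (N θ n) from rfl, inner_smul_right,
      map_mul, inner_conj_symm, map_mul,
      conj_ofReal, map_inv₀, map_sub, map_one, map_mul, conj_ofReal, conj_ee, neg_neg]
  have c1' : Continuous fun θ => inner ℂ n (N θ n') := continuous_inner_N hN n n'
  have c2' : Continuous fun θ => inner ℂ (N θ n) n' := by
    have := continuous_conj.comp (continuous_inner_N hN n' n)
    refine this.congr fun θ => ?_
    exact inner_conj_symm _ _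
  have hsum : inner ℂ n (M1 N h a n') + inner ℂ (M2 N h a n) n' =
      avg fun θ => ((ww h θ : ℝ) : ℂ) * (1 - a * ee 1 θ)⁻¹ *
        (inner ℂ n (N θ n') + inner ℂ (N θ n) n') := by
    rw [i1, i2, ← avg_add
      (F := fun θ => ((ww h θ : ℝ) : ℂ) * (1 - a * ee 1 θ)⁻¹ * inner ℂ n (N θ n'))
      (G := fun θ => ((ww h θ : ℝ) : ℂ) * (1 - a * ee 1 θ)⁻¹ * inner ℂ (N θ n) n')
      ((hw.mul hg1).mul c1') ((hw.mul hg1).mul c2')]
    exact avg_congr fun θ => by ring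
  rw [hsum]
  refine opt_param (inv_nonneg.2 (by linarith)) (cN_nonneg hN hpos n) (cN_nonneg hN hpos n')
    fun t ht => ?_
  have cn : ∀ m : H, Continuous fun θ => ww h θ * (inner ℂ m (N θ m)).re := fun m =>
    hw'.mul (Complex.continuous_re.comp (continuous_inner_N hN m m))
  have hb : (1 - a)⁻¹ * (t⁻¹ * cN N h n + t * cN N h n') = ravg fun θ =>
      (1 - a)⁻¹ * (t⁻¹ * (ww h θ * (inner ℂ n (N θ n)).re) +
        t * (ww h θ * (inner ℂ n' (N θ n')).re)) := by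
    rw [ravg_const_mul, ravg_add (f := fun θ => t⁻¹ * (ww h θ * (inner ℂ n (N θ n)).re))
      (g := fun θ => t * (ww h θ * (inner ℂ n' (N θ n')).re))
      (continuous_const.mul (cn n)) (continuous_const.mul (cn n')),
      ravg_const_mul, ravg_const_mul]
    rfl
  rw [hb]
  refine norm_avg_le' (continuous_const.mul ((continuous_const.mul (cn n)).add
    (continuous_const.mul (cn n')))) fun θ => ?_
  rw [norm_mul, norm_mul, Complex.norm_real, Real.norm_of_nonneg (ww_nonneg hpos θ)]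
  have h1 := accretive_cs (hN.nn θ) n n' ht
  have h2 := norm_inv_one_sub_ee ha0 ha 1 θ
  have h3 := ww_nonneg hpos θ
  calc ww h θ * ‖((1 : ℂ) - a * ee 1 θ)⁻¹‖ * ‖inner ℂ n (N θ n') + inner ℂ (N θ n) n'‖
      ≤ ww h θ * (1 - a)⁻¹ * (t⁻¹ * (inner ℂ n (N θ n)).re + t * (inner ℂ n' (N θ n')).re) := by
        gcongr
    _ = _ := by ring

theorem geom_rz (hS : SR S) (ha0 : 0 ≤ a) (ha : a < 1) (θ : ℝ) :
    (1 - (a : ℂ) * ee 1 θ)⁻¹ • rz S θ =
      phi S (fun z => (1 - (a : ℂ) * z)⁻¹) * (lr a θ • (1 : H →L[ℂ] H) + rz S θ) := by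
  have hn : ‖(a : ℂ)‖ ≤ 1 := by rw [Complex.norm_real, Real.norm_of_nonneg ha0]; exact ha.le
  have h1 : HD fun z => (1 - (a : ℂ) * z)⁻¹ :=
    ((HD.const 1).sub (HD.smul _ HD.id)).inv (one_sub_ne_zero hn)
  have h2 : HD fun z => (1 - ee (-1) θ * z)⁻¹ :=
    ((HD.const 1).sub (HD.smul _ HD.id)).inv (one_sub_ne_zero (norm_ee _ _).le)
  have e1 : lr a θ • (1 : H →L[ℂ] H) + rz S θ =
      phi S (fun z => lr a θ + (1 - ee (-1) θ * z)⁻¹) := by
    rw [hS.phi_add (HD.const _) h2, phi_const, rz]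
  rw [e1, ← hS.phi_mul h1 ((HD.const _).add h2), rz, ← hS.phi_smul _ h2]
  refine phi_congr fun z hz => ?_
  have n1 : (1 : ℂ) - a * ee 1 θ ≠ 0 := one_sub_ee_ne (by rwa [abs_of_nonneg ha0]) 1 θ
  have n2 : (1 : ℂ) - a * z ≠ 0 := one_sub_ne_zero hn z hz
  have n3 : (1 : ℂ) - ee (-1) θ * z ≠ 0 := one_sub_ne_zero (norm_ee _ _).le z hz
  have e2 : ee 1 θ * ee (-1) θ = 1 := by rw [← ee_add]; simp [ee_zero]
  simp only [lr]
  field_simp
  linear_combination ((a : ℂ) * z) * e2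

theorem M1_close (hS : SR S) (hN : NF a e c1 c2 S B N) (hr : 1 < r)
    (hh : DifferentiableOn ℂ h (ball 0 r)) (hpos : ∀ z ∈ closedBall (0 : ℂ) 1, 0 ≤ (h z).re)
    (ha0 : 0 ≤ a) (ha : a < 1) :
    ‖M1 N h a - phi S (fun z => (1 - (a : ℂ) * z)⁻¹) * (phi S h + conj (h a) • (1 : H →L[ℂ] H))‖ ≤
      (1 - a)⁻¹ * c1 * (2 * (h 0).re) := by
  have hw := continuous_ww_coe hr hh
  have hg := continuous_geom ha0 ha 1
  have hR := continuous_rz hS
  have hl := continuous_lr ha0 ha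
  set B' := phi S (fun z => (1 - (a : ℂ) * z)⁻¹) with hB'
  have c0 : 0 ≤ c1 := (norm_nonneg _).trans (hN.e1 0)
  have e1 : B' * (phi S h + conj (h a) • (1 : H →L[ℂ] H)) =
      avg fun θ => (((ww h θ : ℝ) : ℂ) * (1 - a * ee 1 θ)⁻¹) • rz S θ := by
    have h1 : ∀ θ, (((ww h θ : ℝ) : ℂ) * (1 - a * ee 1 θ)⁻¹) • rz S θ =
        (ContinuousLinearMap.mul ℂ (H →L[ℂ] H) B')
          ((((h (ee 1 θ) + conj (h (ee 1 θ))) * lr a θ) • (1 : H →L[ℂ] H)) +
          (h (ee 1 θ) + conj (h (ee 1 θ))) • rz S θ) := by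
      intro θ
      rw [mul_smul, geom_rz hS ha0 ha, ww_coe, ContinuousLinearMap.mul_apply', ← mul_smul_comm,
        smul_add, smul_smul]
    have hw2 : Continuous fun θ => h (ee 1 θ) + conj (h (ee 1 θ)) := by
      simp_rw [← ww_coe]; exact hw
    have hF1 : Continuous fun θ =>
      ((h (ee 1 θ) + conj (h (ee 1 θ))) * lr a θ) • (1 : H →L[ℂ] H) :=
        (hw2.mul hl).smul continuous_const
    have hF2 : Continuous fun θ => (h (ee 1 θ) + conj (h (ee 1 θ))) • rz S θ := hw2.smul hR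
    rw [avg_congr h1, avg_clm (ContinuousLinearMap.mul ℂ (H →L[ℂ] H) B')
      (F := fun θ => (((h (ee 1 θ) + conj (h (ee 1 θ))) * lr a θ) • (1 : H →L[ℂ] H)) +
          (h (ee 1 θ) + conj (h (ee 1 θ))) • rz S θ) (hF1.add hF2), avg_add hF1 hF2,
      avg_smul_const, mean_lr hr hh ha0 ha, mean_rz hS hr hh, ContinuousLinearMap.mul_apply']
    congr 1
    rw [sub_smul]
    abel
  rw [e1, M1, ← avg_sub (F := fun θ => (((ww h θ : ℝ) : ℂ) * (1 - a * ee 1 θ)⁻¹) • N θ)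
    (G := fun θ => (((ww h θ : ℝ) : ℂ) * (1 - a * ee 1 θ)⁻¹) • rz S θ)
    ((hw.mul hg).smul hN.cont) ((hw.mul hg).smul hR)]
  refine norm_avg_ww_le hr hh fun θ => ?_
  rw [← smul_sub, norm_smul, norm_mul, Complex.norm_real, Real.norm_of_nonneg (ww_nonneg hpos θ)]
  have h2 := norm_inv_one_sub_ee ha0 ha 1 θ
  have h3 := ww_nonneg hpos θ
  have h4 := hN.e1 θ
  calc ww h θ * ‖((1 : ℂ) - a * ee 1 θ)⁻¹‖ * ‖N θ - rz S θ‖ ≤ ww h θ * (1 - a)⁻¹ * c1 := by gcongr
    _ = _ := by ring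

theorem M2_close (hS : SR S) (hN : NF a e c1 c2 S B N) (hr : 1 < r)
    (hh : DifferentiableOn ℂ h (ball 0 r)) (hpos : ∀ z ∈ closedBall (0 : ℂ) 1, 0 ≤ (h z).re)
    (ha0 : 0 ≤ a) (ha : a < 1) :
    ‖M2 N h a - (phi S (fun z => h z + a * dslope h a z) + conj (h 0) • (1 : H →L[ℂ] H))‖ ≤
      (1 - a)⁻¹ * c1 * (2 * (h 0).re) := by
  have hw := continuous_ww_coe hr hh
  have hg := continuous_geom ha0 ha (-1)
  have hR := continuous_rz hS
  have c0 : 0 ≤ c1 := (norm_nonneg _).trans (hN.e1 0)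
  have e1 : phi S (fun z => h z + a * dslope h a z) + conj (h 0) • (1 : H →L[ℂ] H) =
      avg fun θ => (((ww h θ : ℝ) : ℂ) * (1 - a * ee (-1) θ)⁻¹) • rz S θ := by
    rw [← mean_geom hS hr hh ha0 ha]
    exact avg_congr fun θ => by rw [ww_coe, mul_smul]
  rw [e1, M2, ← avg_sub (F := fun θ => (((ww h θ : ℝ) : ℂ) * (1 - a * ee (-1) θ)⁻¹) • N θ)
    (G := fun θ => (((ww h θ : ℝ) : ℂ) * (1 - a * ee (-1) θ)⁻¹) • rz S θ)
    ((hw.mul hg).smul hN.cont) ((hw.mul hg).smul hR)]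
  refine norm_avg_ww_le hr hh fun θ => ?_
  rw [← smul_sub, norm_smul, norm_mul, Complex.norm_real, Real.norm_of_nonneg (ww_nonneg hpos θ)]
  have h2 := norm_inv_one_sub_ee ha0 ha (-1) θ
  have h3 := ww_nonneg hpos θ
  have h4 := hN.e1 θ
  calc ww h θ * ‖((1 : ℂ) - a * ee (-1) θ)⁻¹‖ * ‖N θ - rz S θ‖ ≤ ww h θ * (1 - a)⁻¹ * c1 := by
        gcongr
    _ = _ := by ring

end

end C3N.H75
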