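import Pool.Agent.Lib.MP_c3d375_an.Neg.Iface
import Pool.Agent.Lib.MP_c3d375_an.Neg.H75.Abs

/-!
# The positivity (POS) and the kernel inequality (KRN) for a system
-/

open Complex Metric Set Filter Topology MeasureTheory ComplexConjugate
open Pool.Agent.Lib.MP_c3d375_an (ee ee_zero ee_add norm_ee continuous_ee conj_ee ee_natCast integral_ee)

namespace C3N.H75

section gelfand

variable {H : Type*} [NormedAddCommGroup H] [InnerProductSpace ℂ H] [CompleteSpace H]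

theorem sr_of_power_bounded {S : H →L[ℂ] H} {C : ℝ} (hC : ∀ n : ℕ, ‖S ^ n‖ ≤ C)
    (hc : ∀ ζ : ℂ, ‖ζ‖ = 1 → ζ ∉ spectrum ℂ S) : SR S := by
  have h1 : ∀ k ∈ spectrum ℂ S, ‖k‖ < 1 := by
    intro k hk
    have hle : ‖k‖ ≤ 1 := by
      by_contra hlt
      push Not at hlt
      have h2 : ∀ n : ℕ, ‖k‖ ^ n ≤ C * ‖(1 : H →L[ℂ] H)‖ := by
        intro n
        rw [← norm_pow]
        exact (spectrum.norm_le_norm_mul_of_mem (spectrum.pow_mem_pow S n hk)).trans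
          (mul_le_mul_of_nonneg_right (hC n) (norm_nonneg _))
      obtain ⟨n, hn⟩ := pow_unbounded_of_one_lt (C * ‖(1 : H →L[ℂ] H)‖) hlt
      exact absurd (h2 n) (not_le.2 hn)
    exact lt_of_le_of_ne hle fun h => hc k h hk
  have h2 : spectralRadius ℂ S < 1 := by
    rcases (spectrum ℂ S).eq_empty_or_nonempty with h | h
    · rw [spectralRadius, h]; simp
    · exact_mod_cast spectrum.spectralRadius_lt_of_forall_lt_of_nonempty (r := 1) h
        (fun k hk => by exact_mod_cast h1 k hk)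
  obtain ⟨s, hs1, hs2⟩ := exists_between h2
  obtain ⟨s', rfl⟩ : ∃ s' : NNReal, s = s' := ⟨s.toNNReal, (ENNReal.coe_toNNReal (ne_top_of_lt hs2)).symm⟩
  have hs0 : 0 < s' := by
    have : (0 : ENNReal) < s' := lt_of_le_of_lt zero_le hs1
    exact_mod_cast this
  have h3 := spectrum.pow_nnnorm_pow_one_div_tendsto_nhds_spectralRadius S
  have h4 := h3.eventually_lt_const hs1
  obtain ⟨N, hN⟩ := eventually_atTop.1 h4
  have h5 : ∀ n, N ≤ n → 1 ≤ n → ‖S ^ n‖ ≤ (s' : ℝ) ^ n := by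
    intro n hn hn1
    have h6 := hN n hn
    have h7 : ((‖S ^ n‖₊ : ENNReal) ^ (1 / n : ℝ)) ^ (n : ℝ) ≤ (s' : ENNReal) ^ (n : ℝ) :=
      ENNReal.rpow_le_rpow h6.le (by positivity)
    rw [← ENNReal.rpow_mul, one_div, inv_mul_cancel₀ (by positivity), ENNReal.rpow_one,
      ENNReal.rpow_natCast] at h7
    exact_mod_cast h7
  have hs'1 : (s' : ℝ) < 1 := by exact_mod_cast hs2
  have hs'0 : (0 : ℝ) < s' := by exact_mod_cast hs0
  have hC0 : 0 ≤ C := (norm_nonneg _).trans (hC 0)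
  refine ⟨(C + 1) * ((s' : ℝ)⁻¹) ^ (N + 1) + 1, s', by positivity, hs'0, hs'1, fun n => ?_⟩
  by_cases hn : N + 1 ≤ n
  · refine (h5 n (by omega) (by omega)).trans ?_
    have : 0 ≤ (C + 1) * ((s' : ℝ)⁻¹) ^ (N + 1) := by positivity
    have h8 : 0 < (s' : ℝ) ^ n := by positivity
    nlinarith
  · push Not at hn
    have h8 : (1 : ℝ) ≤ ((s' : ℝ)⁻¹) ^ (N + 1) * (s' : ℝ) ^ n := by
      have h9 : ((s' : ℝ)⁻¹) ^ (N + 1) * (s' : ℝ) ^ (N + 1) = 1 := by
        rw [← mul_pow, inv_mul_cancel₀ hs'0.ne', one_pow]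
      rw [← h9]
      gcongr ?_ * ?_
      exact pow_le_pow_of_le_one hs'0.le hs'1.le hn.le
    have h10 : 0 < (s' : ℝ) ^ n := by positivity
    have := hC n
    nlinarith

end gelfand

section sys

variable {H : Type} [NormedAddCommGroup H] [InnerProductSpace ℂ H] [CompleteSpace H] {a e r : ℝ}

/-- the operator of the system -/
noncomputable def opS (S0 : Sys0 a e r H) : H →L[ℂ] H := S0.Φ (hol r fun z => z)

theorem opS_pow (S0 : Sys0 a e r H) (n : ℕ) : opS S0 ^ n = S0.Φ ((hol r fun z => z) ^ n) := by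
  rw [map_pow]; rfl

theorem fn_id_pow (n : ℕ) {z : ℂ} (h : z ∈ ball (0 : ℂ) r) :
    fn ((hol r fun z => z) ^ n) z = z ^ n := by
  rw [fn_pow _ _ h, fn_hol (ψ := fun z => z) differentiableOn_id h]

theorem sys_sr (hr : 1 < r) (S0 : Sys0 a e r H) : SR (opS S0) := by
  obtain ⟨C, hC⟩ := S0.bdd
  have hsub : closedBall (0 : ℂ) 1 ⊆ ball 0 r := closedBall_subset_ball hr
  refine sr_of_power_bounded (C := C * 1) (fun n => ?_) (fun ζ hζ => ?_)
  · rw [opS_pow]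
    refine hC _ 1 fun z hz => ?_
    rw [fn_id_pow n (hsub hz), norm_pow]
    exact pow_le_one₀ (norm_nonneg _) (by simpa using hz)
  · rw [spectrum.notMem_iff]
    have h1 := S0.inv ζ hζ
    have h2 : hol r (fun z => ζ - z) = algebraMap ℂ (Hol r) ζ - hol r fun z => z := by
      apply hol_ext
      intro z hz
      rw [fn_hol (ψ := fun z => ζ - z) ((differentiableOn_const ζ).sub differentiableOn_id) hz, fn_sub,
        fn_algebraMap _ hz, fn_hol (ψ := fun z => z) differentiableOn_id hz]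
    rw [h2, map_sub, AlgHom.commutes] at h1
    exact h1

theorem sys_phi (hr : 1 < r) (S0 : Sys0 a e r H) (φ : Hol r) : S0.Φ φ = phi (opS S0) (fn φ) := by
  have hS := sys_sr hr S0
  obtain ⟨C, hC⟩ := S0.bdd
  have hd := fn_differentiableOn φ
  have hsub : closedBall (0 : ℂ) 1 ⊆ ball 0 r := closedBall_subset_ball hr
  have hs := summable_norm_cf hr hd
  -- partial sums
  let p : ℕ → Hol r := fun N => ∑ n ∈ Finset.range N, cf (fn φ) n • (hol r fun z => z) ^ n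
  have hp : ∀ N, S0.Φ (p N) = ∑ n ∈ Finset.range N, cf (fn φ) n • opS S0 ^ n := by
    intro N
    simp only [p]
    rw [map_sum]
    refine Finset.sum_congr rfl fun n _ => ?_
    rw [map_smul, ← opS_pow]
  have hpf : ∀ N, ∀ z ∈ ball (0 : ℂ) r, fn (p N) z = ∑ n ∈ Finset.range N, cf (fn φ) n * z ^ n := by
    intro N z hz
    induction N with
    | zero =>
      simp only [p, Finset.range_zero, Finset.sum_empty]
      have := fn_algebraMap (0 : ℂ) hz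
      rwa [map_zero] at this
    | succ N ih =>
      have : p (N + 1) = p N + cf (fn φ) N • (hol r fun z => z) ^ N := by
        simp only [p, Finset.sum_range_succ]
      rw [this, fn_add, ih, fn_smul, fn_id_pow N hz, Finset.sum_range_succ]
  have h1 : Tendsto (fun N => S0.Φ (p N)) atTop (𝓝 (phi (opS S0) (fn φ))) := by
    simp_rw [hp]
    exact (hS.summable (hd_of hr hd)).hasSum.tendsto_sum_nat
  have h2 : Tendsto (fun N => S0.Φ (p N)) atTop (𝓝 (S0.Φ φ)) := by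
    rw [tendsto_iff_norm_sub_tendsto_zero]
    have h3 : ∀ N, ‖S0.Φ (p N) - S0.Φ φ‖ ≤ C * ∑' k, ‖cf (fn φ) (k + N)‖ := by
      intro N
      rw [← map_sub]
      refine hC _ _ fun z hz => ?_
      rw [fn_sub, hpf N z (hsub hz), ← (hasSum_cf' hd (hsub hz)).tsum_eq,
        ← (hasSum_cf' hd (hsub hz)).summable.sum_add_tsum_nat_add N]
      rw [show ∀ x y : ℂ, x - (x + y) = -y from fun x y => by ring, norm_neg]
      have h4 : ∀ k : ℕ, ‖cf (fn φ) (k + N) * z ^ (k + N)‖ ≤ ‖cf (fn φ) (k + N)‖ := by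
        intro k
        rw [norm_mul, norm_pow]
        exact mul_le_of_le_one_right (norm_nonneg _)
          (pow_le_one₀ (norm_nonneg _) (by simpa using hz))
      exact tsum_of_norm_bounded ((summable_nat_add_iff N).2 hs).hasSum h4
    have h5 : Tendsto (fun N => C * ∑' k, ‖cf (fn φ) (k + N)‖) atTop (𝓝 (C * 0)) :=
      (tendsto_sum_nat_add fun n => ‖cf (fn φ) n‖).const_mul C
    rw [mul_zero] at h5
    exact squeeze_zero (fun _ => norm_nonneg _) h3 h5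
  exact tendsto_nhds_unique h2 h1

/-! ### the kernel operators -/

/-- parameters -/
structure Par (a e r : ℝ) : Prop where
  a0 : 1 / 2 ≤ a
  a1 : a < 1
  e0 : 0 < e
  e1 : e < (1 - a) ^ 2 / 8
  r1 : 1 < r
  r2 : r ≤ (1 + a) / (2 * a)

variable {z ζ : ℂ}

theorem Par.norm_az (P : Par a e r) (hz : z ∈ ball (0 : ℂ) r) : ‖(a : ℂ) * z‖ < 1 := by
  have h1 : ‖z‖ < r := by simpa using hz
  have h2 := P.a0
  have h3 := P.a1
  have h4 := P.r2
  rw [norm_mul, Complex.norm_real, Real.norm_of_nonneg (by linarith)]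
  rw [le_div_iff₀ (by linarith)] at h4
  nlinarith

theorem Par.one_sub_ne (P : Par a e r) (hz : z ∈ ball (0 : ℂ) r) : (1 : ℂ) - a * z ≠ 0 := by
  intro h
  have := P.norm_az hz
  rw [← sub_eq_zero.1 h, norm_one] at this
  exact lt_irrefl _ this

theorem Par.norm_one_sub (P : Par a e r) (hζ : ‖ζ‖ = 1) : 1 - a ≤ ‖(1 : ℂ) - a * ζ‖ := by
  have h2 := P.a0
  have h1 : ‖(a : ℂ) * ζ‖ = a := by
    rw [norm_mul, hζ, mul_one, Complex.norm_real, Real.norm_of_nonneg (by linarith)]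
  have h3 := norm_sub_norm_le (1 : ℂ) (a * ζ)
  rwa [norm_one, h1] at h3

theorem Par.sph (P : Par a e r) (hζ : ‖ζ‖ = 1) : ζ ∈ ball (0 : ℂ) r := by
  rw [mem_ball_zero_iff, hζ]; exact P.r1

theorem Par.diff_chi (P : Par a e r) : DifferentiableOn ℂ (chi a e) (ball 0 r) := by
  unfold chi
  exact differentiableOn_id.add ((differentiableOn_const _).div
    ((differentiableOn_const _).sub ((differentiableOn_const _).mul differentiableOn_id))
    fun z hz => P.one_sub_ne hz)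

theorem Par.diff_B (P : Par a e r) : DifferentiableOn ℂ (fun z => 1 / (1 - (a : ℂ) * z)) (ball 0 r) :=
  (differentiableOn_const _).div
    ((differentiableOn_const _).sub ((differentiableOn_const _).mul differentiableOn_id))
    fun z hz => P.one_sub_ne hz

theorem Par.chi_sub (P : Par a e r) (hz : z ∈ ball (0 : ℂ) r) (hζ : ζ ∈ ball (0 : ℂ) r) :
    chi a e ζ - chi a e z = (ζ - z) * (1 + e / ((1 - a * ζ) * (1 - a * z))) := by
  have n1 := P.one_sub_ne hz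
  have n2 := P.one_sub_ne hζ
  have n3 : (a : ℂ) ≠ 0 := by
    have := P.a0
    exact_mod_cast (by linarith : a ≠ 0)
  have h1 : ((e : ℂ) / a) / (1 - a * ζ) - ((e : ℂ) / a) / (1 - a * z) =
      (ζ - z) * (e / ((1 - a * ζ) * (1 - a * z))) := by
    rw [div_sub_div _ _ n2 n1, ← mul_div_assoc (ζ - z)]
    congr 1
    field_simp
    ring
  unfold chi
  push_cast
  linear_combination h1

/-- `Φ (1/(1-az))` -/
theorem sys_B (P : Par a e r) (S0 : Sys0 a e r H) :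
    S0.Φ (Bf a r) = phi (opS S0) fun z => (1 - (a : ℂ) * z)⁻¹ := by
  rw [sys_phi P.r1]
  refine phi_congr fun z hz => ?_
  have hz' : z ∈ ball (0 : ℂ) r := ball_subset_ball P.r1.le hz
  rw [Bf, fn_hol P.diff_B hz', one_div]

/-- the factor `(1 - aζ) + e B` -/
noncomputable def dd (S0 : Sys0 a e r H) (ζ : ℂ) : H →L[ℂ] H :=
  (1 - a * ζ) • (1 : H →L[ℂ] H) + (e : ℂ) • S0.Φ (Bf a r)

theorem dd_bound (P : Par a e r) (S0 : Sys0 a e r H) (hζ : ‖ζ‖ = 1) (x : H) :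
    (1 - a) / 2 * ‖x‖ ≤ ‖dd S0 ζ x‖ := by
  have h1 : dd S0 ζ x = (1 - a * ζ) • x + (e : ℂ) • S0.Φ (Bf a r) x := rfl
  have h2 : ‖(1 - (a : ℂ) * ζ) • x‖ - ‖(e : ℂ) • S0.Φ (Bf a r) x‖ ≤
      ‖(1 - (a : ℂ) * ζ) • x + (e : ℂ) • S0.Φ (Bf a r) x‖ := by
    have := norm_sub_norm_le ((1 - (a : ℂ) * ζ) • x) (-((e : ℂ) • S0.Φ (Bf a r) x))
    rwa [norm_neg, sub_neg_eq_add] at this
  have h3 := P.norm_one_sub hζ
  have h4 : ‖(e : ℂ) • S0.Φ (Bf a r) x‖ ≤ e * (4 / (1 - a)) * ‖x‖ := by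
    rw [norm_smul, Complex.norm_real, Real.norm_of_nonneg P.e0.le, mul_assoc]
    refine mul_le_mul_of_nonneg_left ?_ P.e0.le
    exact ((S0.Φ (Bf a r)).le_opNorm x).trans (mul_le_mul_of_nonneg_right S0.nB (norm_nonneg x))
  have h5 : e * (4 / (1 - a)) ≤ (1 - a) / 2 := by
    have h6 : 0 < 1 - a := by linarith [P.a1]
    rw [mul_div_assoc', div_le_iff₀ h6]
    nlinarith [P.e1]
  rw [norm_smul] at h2
  rw [h1]
  have h7 := mul_le_mul_of_nonneg_right h3 (norm_nonneg x)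
  have h8 := mul_le_mul_of_nonneg_right h5 (norm_nonneg x)
  linarith

/-- division by `dd` -/
theorem norm_le_of_dd (P : Par a e r) (S0 : Sys0 a e r H) (hζ : ‖ζ‖ = 1) {X Y : H →L[ℂ] H}
    (h : dd S0 ζ * X = Y) {c : ℝ} (hc : 0 ≤ c) (hY : ‖Y‖ ≤ c) : ‖X‖ ≤ 2 * c / (1 - a) := by
  have h6 : 0 < 1 - a := by linarith [P.a1]
  refine ContinuousLinearMap.opNorm_le_bound _ (by positivity) fun x => ?_
  have h1 := dd_bound P S0 hζ (X x)
  have h2 : dd S0 ζ (X x) = Y x := by rw [← h]; rfl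
  rw [h2] at h1
  have h3 : ‖Y x‖ ≤ c * ‖x‖ := (Y.le_opNorm x).trans (mul_le_mul_of_nonneg_right hY (norm_nonneg x))
  rw [div_mul_eq_mul_div, le_div_iff₀ h6]
  nlinarith

/-- `T` -/
noncomputable def opT (S0 : Sys0 a e r H) : H →L[ℂ] H := S0.Φ (hol r (chi a e))

theorem sys_T (P : Par a e r) (S0 : Sys0 a e r H) : opT S0 = phi (opS S0) (chi a e) := by
  rw [opT, sys_phi P.r1]
  refine phi_congr fun z hz => ?_
  exact fn_hol P.diff_chi (ball_subset_ball P.r1.le hz)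

theorem Par.norm_one_sub' (P : Par a e r) (hz : z ∈ ball (0 : ℂ) 1) : 1 - a ≤ ‖(1 : ℂ) - a * z‖ := by
  have h2 := P.a0
  have h0 : ‖z‖ < 1 := by simpa using hz
  have h1 : ‖(a : ℂ) * z‖ ≤ a := by
    rw [norm_mul, Complex.norm_real, Real.norm_of_nonneg (by linarith)]
    nlinarith
  have h3 := norm_sub_norm_le (1 : ℂ) (a * z)
  rw [norm_one] at h3
  linarith

theorem Par.dist_ne (_P : Par a e r) (hζ : ‖ζ‖ = 1) (hz : z ∈ ball (0 : ℂ) 1) : ζ - z ≠ 0 := by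
  intro h
  have h0 : ‖z‖ < 1 := by simpa using hz
  rw [← sub_eq_zero.1 h, hζ] at h0
  exact lt_irrefl _ h0

theorem Par.d_ne (P : Par a e r) (hζ : ‖ζ‖ = 1) (hz : z ∈ ball (0 : ℂ) 1) :
    (1 - a * ζ) + e * (1 - a * z)⁻¹ ≠ 0 := by
  intro h
  have h1 := P.norm_one_sub hζ
  have h2 := P.norm_one_sub' hz
  have h6 : 0 < 1 - a := by linarith [P.a1]
  have h3 : ‖(1 : ℂ) - a * ζ‖ = ‖(e : ℂ) * (1 - a * z)⁻¹‖ := by
    rw [eq_neg_of_add_eq_zero_left h, norm_neg]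
  rw [norm_mul, norm_inv, Complex.norm_real, Real.norm_of_nonneg P.e0.le] at h3
  have h4 : e * ‖(1 : ℂ) - a * z‖⁻¹ ≤ e * (1 - a)⁻¹ :=
    mul_le_mul_of_nonneg_left (inv_anti₀ h6 h2) P.e0.le
  have h5 : e * (1 - a)⁻¹ < 1 - a := by
    rw [← div_eq_mul_inv, div_lt_iff₀ h6]
    nlinarith [P.e1]
  linarith

theorem Par.chi_sub_eq (P : Par a e r) (hζ : ‖ζ‖ = 1) (hz : z ∈ ball (0 : ℂ) 1) :
    chi a e ζ - chi a e z = (ζ - z) * ((1 - a * ζ) + e * (1 - a * z)⁻¹) / (1 - a * ζ) := by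
  have hz' : z ∈ ball (0 : ℂ) r := ball_subset_ball P.r1.le hz
  have n1 := P.one_sub_ne hz'
  have n2 := P.one_sub_ne (P.sph hζ)
  rw [P.chi_sub hz' (P.sph hζ), mul_div_assoc, add_div, div_self n2]
  congr 2
  rw [← div_eq_mul_inv, div_div, mul_comm (1 - (a : ℂ) * z)]

theorem Par.chi_sub_ne (P : Par a e r) (hζ : ‖ζ‖ = 1) (hz : z ∈ ball (0 : ℂ) 1) :
    chi a e ζ - chi a e z ≠ 0 := by
  rw [P.chi_sub_eq hζ hz]
  exact div_ne_zero (mul_ne_zero (P.dist_ne hζ hz) (P.d_ne hζ hz)) (P.one_sub_ne (P.sph hζ))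

theorem Par.hd_chi (P : Par a e r) : HD (chi a e) := P.diff_chi.mono (ball_subset_ball P.r1.le)

/-- `(χ(ζ) - χ)⁻¹` -/
noncomputable def ff0 (a e : ℝ) (ζ : ℂ) (z : ℂ) : ℂ := (chi a e ζ - chi a e z)⁻¹

theorem Par.hd_ff0 (P : Par a e r) (hζ : ‖ζ‖ = 1) : HD (ff0 a e ζ) :=
  ((HD.const _).sub P.hd_chi).inv fun _ hz => P.chi_sub_ne hζ hz

theorem sys_res (P : Par a e r) (S0 : Sys0 a e r H) (hζ : ‖ζ‖ = 1) :
    phi (opS S0) (ff0 a e ζ) * (chi a e ζ • (1 : H →L[ℂ] H) - opT S0) = 1 ∧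
      (chi a e ζ • (1 : H →L[ℂ] H) - opT S0) * phi (opS S0) (ff0 a e ζ) = 1 := by
  have hS := sys_sr P.r1 S0
  have h1 : chi a e ζ • (1 : H →L[ℂ] H) - opT S0 = phi (opS S0) fun z => chi a e ζ - chi a e z := by
    rw [hS.phi_sub (HD.const _) P.hd_chi, phi_const, sys_T P]
  rw [h1]
  exact ⟨hS.phi_inv_mul ((HD.const _).sub P.hd_chi) fun _ hz => P.chi_sub_ne hζ hz,
    hS.phi_mul_inv ((HD.const _).sub P.hd_chi) fun _ hz => P.chi_sub_ne hζ hz⟩

/-- the kernel operators -/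
noncomputable def nz (S0 : Sys0 a e r H) (θ : ℝ) : H →L[ℂ] H :=
  (ee 1 θ * chid a e (ee 1 θ)) • Ring.inverse (chi a e (ee 1 θ) • (1 : H →L[ℂ] H) - opT S0)

theorem sys_unit (P : Par a e r) (S0 : Sys0 a e r H) (hζ : ‖ζ‖ = 1) :
    IsUnit (chi a e ζ • (1 : H →L[ℂ] H) - opT S0) := by
  obtain ⟨h1, h2⟩ := sys_res P S0 hζ
  exact ⟨⟨_, _, h2, h1⟩, rfl⟩

theorem sys_inv (P : Par a e r) (S0 : Sys0 a e r H) (hζ : ‖ζ‖ = 1) :
    Ring.inverse (chi a e ζ • (1 : H →L[ℂ] H) - opT S0) = phi (opS S0) (ff0 a e ζ) := by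
  obtain ⟨h1, h2⟩ := sys_res P S0 hζ
  exact Ring.inverse_unit (⟨_, _, h2, h1⟩ : (H →L[ℂ] H)ˣ)

theorem nz_eq (P : Par a e r) (S0 : Sys0 a e r H) (θ : ℝ) :
    nz S0 θ = (ee 1 θ * chid a e (ee 1 θ)) • phi (opS S0) (ff0 a e (ee 1 θ)) := by
  rw [nz, sys_inv P S0 (norm_ee _ _)]

theorem nz_cont (P : Par a e r) (S0 : Sys0 a e r H) : Continuous (nz S0) := by
  have hc : Continuous (ee 1) := continuous_ee 1
  have hne : ∀ θ, (1 : ℂ) - a * ee 1 θ ≠ 0 := fun θ => P.one_sub_ne (P.sph (norm_ee _ _))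
  have h1 : Continuous fun θ => chi a e (ee 1 θ) := by
    unfold chi
    exact hc.add (continuous_const.div (continuous_const.sub (continuous_const.mul hc)) hne)
  have h2 : Continuous fun θ => chid a e (ee 1 θ) := by
    unfold chid
    exact continuous_const.add (continuous_const.div
      ((continuous_const.sub (continuous_const.mul hc)).pow 2) fun θ => pow_ne_zero 2 (hne θ))
  refine (hc.mul h2).smul ?_
  have h3 : Continuous fun θ => chi a e (ee 1 θ) • (1 : H →L[ℂ] H) - opT S0 :=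
    (h1.smul continuous_const).sub continuous_const
  rw [continuous_iff_continuousAt]
  intro θ
  obtain ⟨u, hu⟩ := sys_unit P S0 (norm_ee 1 θ)
  have h4 := NormedRing.inverse_continuousAt u
  rw [hu] at h4
  exact ContinuousAt.comp (f := fun θ => chi a e (ee 1 θ) • (1 : H →L[ℂ] H) - opT S0) h4
    h3.continuousAt

omit [CompleteSpace H] in
theorem inner_scale (A : H →L[ℂ] H) (k : ℂ) (u : H) (hu : ‖u‖ = 1) (c : ℝ) :
    inner ℂ ((c : ℂ) • u) (k • ((c : ℂ) • u) - A ((c : ℂ) • u)) =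
      ((c ^ 2 : ℝ) : ℂ) * (k - inner ℂ u (A u)) := by
  have h9 : inner ℂ u u = (1 : ℂ) := by
    rw [inner_self_eq_norm_sq_to_K, hu]; simp
  rw [map_smul, smul_comm k, ← smul_sub, inner_smul_left, inner_smul_right, inner_sub_right,
    inner_smul_right, h9, conj_ofReal]
  push_cast
  ring

/-- the half plane inequality in operator form -/
theorem nz_nonneg (P : Par a e r) (S0 : Sys0 a e r H)
    (hG : ∀ w : ℂ, w ∈ C1 a e →
      ∀ ζ : ℂ, ‖ζ‖ = 1 → 0 ≤ (conj (ζ * chid a e ζ) * (chi a e ζ - w)).re) (θ : ℝ) (x : H) :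
    0 ≤ (inner ℂ x (nz S0 θ x)).re := by
  set ζ := ee 1 θ with hζd
  have hζ : ‖ζ‖ = 1 := norm_ee _ _
  rw [nz_eq P S0]
  set R := phi (opS S0) (ff0 a e ζ)
  set n := ζ * chid a e ζ with hn
  set y := R x with hy
  have h1 : x = chi a e ζ • y - opT S0 y := by
    have := (sys_res P S0 hζ).2
    have h2 := congrArg (fun A : H →L[ℂ] H => A x) this
    exact h2.symm
  have h3 : (n • R) x = n • y := rfl
  rw [h3, inner_smul_right]
  have h4 : inner ℂ x y = conj (inner ℂ y (chi a e ζ • y - opT S0 y)) := by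
    rw [← h1, inner_conj_symm]
  rw [h4]
  have h5 : (n * conj (inner ℂ y (chi a e ζ • y - opT S0 y))).re =
      (conj n * inner ℂ y (chi a e ζ • y - opT S0 y)).re := by
    rw [← Complex.conj_re, map_mul, Complex.conj_conj]
  rw [h5]
  by_cases hy0 : y = 0
  · rw [hy0]; simp
  · have hyn : 0 < ‖y‖ := norm_pos_iff.2 hy0
    set u := ((‖y‖ : ℂ)⁻¹) • y with hu
    have hun : ‖u‖ = 1 := by
      rw [hu, norm_smul, norm_inv, Complex.norm_real, norm_norm, inv_mul_cancel₀ hyn.ne']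
    have h6 := hG _ (S0.num u hun) ζ hζ
    have h7 : inner ℂ y (chi a e ζ • y - opT S0 y) =
        ((‖y‖ ^ 2 : ℝ) : ℂ) * (chi a e ζ - inner ℂ u (opT S0 u)) := by
      have h8 : y = (‖y‖ : ℂ) • u := by
        rw [hu, smul_smul, mul_inv_cancel₀ (by exact_mod_cast hyn.ne'), one_smul]
      have h9 := inner_scale (opT S0) (chi a e ζ) u hun ‖y‖
      rwa [← h8] at h9
    rw [h7, mul_left_comm, Complex.re_ofReal_mul]
    exact mul_nonneg (by positivity) h6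

theorem hd_inv_one_sub {l : ℂ} (hl : ‖l‖ ≤ 1) : HD fun z => (1 - l * z)⁻¹ :=
  ((HD.const 1).sub (HD.smul _ HD.id)).inv (one_sub_ne_zero hl)

theorem Par.norm_a (P : Par a e r) : ‖(a : ℂ)‖ ≤ 1 := by
  have h2 := P.a0
  rw [Complex.norm_real, Real.norm_of_nonneg (by linarith)]; exact P.a1.le

theorem sys_dd (P : Par a e r) (S0 : Sys0 a e r H) (ζ : ℂ) :
    dd S0 ζ = phi (opS S0) fun z => (1 - a * ζ) + e * (1 - a * z)⁻¹ := by
  have hS := sys_sr P.r1 S0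
  rw [hS.phi_add (HD.const _) (HD.smul _ (hd_inv_one_sub P.norm_a)), phi_const,
    hS.phi_smul _ (hd_inv_one_sub P.norm_a), ← sys_B P, dd]

theorem dd_mul (P : Par a e r) (S0 : Sys0 a e r H) (θ : ℝ) :
    dd S0 (ee 1 θ) * (nz S0 θ - rz (opS S0) θ) =
      (a * e * ee 1 θ * (1 - a * ee 1 θ)⁻¹) • S0.Φ (Bf a r) := by
  have hS := sys_sr P.r1 S0
  have hζ : ‖ee 1 θ‖ = 1 := norm_ee _ _
  have k1 : HD (ff0 a e (ee 1 θ)) := P.hd_ff0 hζ
  have k2 : HD fun z => (1 - ee (-1) θ * z)⁻¹ := hd_inv_one_sub (norm_ee _ _).le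
  have k3 : HD fun z => (1 - (a : ℂ) * z)⁻¹ := hd_inv_one_sub P.norm_a
  rw [nz_eq P, rz, ← hS.phi_smul _ k1, ← hS.phi_sub (HD.smul _ k1) k2, sys_dd P,
    ← hS.phi_mul ((HD.const _).add (HD.smul _ k3)) ((HD.smul _ k1).sub k2), sys_B P,
    ← hS.phi_smul _ k3]
  refine phi_congr fun z hz => ?_
  have hz' : z ∈ ball (0 : ℂ) r := ball_subset_ball P.r1.le hz
  have n1 : (1 : ℂ) - a * z ≠ 0 := P.one_sub_ne hz'
  have n2 : (1 : ℂ) - a * ee 1 θ ≠ 0 := P.one_sub_ne (P.sph hζ)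
  have n3 := P.dist_ne hζ hz
  have n4 := P.d_ne hζ hz
  have e2 : ee (-1) θ * ee 1 θ = 1 := by rw [← ee_add]; simp [ee_zero]
  have n5 : (1 - ee (-1) θ * z)⁻¹ = ee 1 θ * (ee 1 θ - z)⁻¹ := by
    have n6 : (1 : ℂ) - ee (-1) θ * z ≠ 0 := one_sub_ne_zero (norm_ee _ _).le z hz
    have n7 : ee 1 θ - z = ee 1 θ * (1 - ee (-1) θ * z) := by linear_combination z * e2
    have n8 : ee 1 θ ≠ 0 := by rw [← norm_ne_zero_iff, hζ]; exact one_ne_zero
    rw [n7, mul_inv, ← mul_assoc, mul_inv_cancel₀ n8, one_mul]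
  simp only [ff0]
  rw [P.chi_sub_eq hζ hz, n5, chid]
  set ζ := ee 1 θ
  set u := (1 : ℂ) - a * ζ with hu
  set v := (1 : ℂ) - a * z with hv
  have huv : (v - u) = a * (ζ - z) := by rw [hu, hv]; ring
  rw [inv_div, mul_sub]
  have t1 : (u + e * v⁻¹) * (ζ * (1 + e / u ^ 2) * (u / ((ζ - z) * (u + e * v⁻¹)))) =
      ζ * (u + e * u⁻¹) * (ζ - z)⁻¹ := by
    rw [div_eq_mul_inv u, mul_inv]
    have : (u + e * v⁻¹) * (u + e * v⁻¹)⁻¹ = 1 := mul_inv_cancel₀ n4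
    have t2 : (1 + (e : ℂ) / u ^ 2) * u = u + e * u⁻¹ := by field_simp
    calc (u + e * v⁻¹) * (ζ * (1 + e / u ^ 2) * (u * ((ζ - z)⁻¹ * (u + e * v⁻¹)⁻¹)))
        = ((u + e * v⁻¹) * (u + e * v⁻¹)⁻¹) * ζ * ((1 + e / u ^ 2) * u) * (ζ - z)⁻¹ := by ring
      _ = _ := by rw [this, t2]; ring
  rw [t1]
  have t3 : ζ * (u + e * u⁻¹) * (ζ - z)⁻¹ - (u + e * v⁻¹) * (ζ * (ζ - z)⁻¹) =
      ζ * e * (u⁻¹ - v⁻¹) * (ζ - z)⁻¹ := by ring
  have t4 : u⁻¹ - v⁻¹ = (v - u) * (u⁻¹ * v⁻¹) := by field_simp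
  rw [t3, t4, huv]
  field_simp

theorem nz_e1 (P : Par a e r) (S0 : Sys0 a e r H) (θ : ℝ) :
    ‖nz S0 θ - rz (opS S0) θ‖ ≤ 8 * e / (1 - a) ^ 3 := by
  have h6 : 0 < 1 - a := by linarith [P.a1]
  have he := P.e0
  have hζ : ‖ee 1 θ‖ = 1 := norm_ee _ _
  have h1 := norm_le_of_dd P S0 hζ (dd_mul P S0 θ) (c := 4 * e / (1 - a) ^ 2) (by positivity) ?_
  · refine h1.trans (le_of_eq ?_)
    field_simp
    ring
  · rw [norm_smul, norm_mul, norm_mul, norm_mul, hζ, Complex.norm_real, Complex.norm_real, norm_inv,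
      Real.norm_of_nonneg he.le, Real.norm_of_nonneg (by linarith [P.a0])]
    have h2 : ‖(1 : ℂ) - a * ee 1 θ‖⁻¹ ≤ (1 - a)⁻¹ := inv_anti₀ h6 (P.norm_one_sub hζ)
    have h3 := S0.nB
    have h4 : a ≤ 1 := P.a1.le
    have h5 : 0 ≤ a := by linarith [P.a0]
    calc a * e * 1 * ‖(1 : ℂ) - a * ee 1 θ‖⁻¹ * ‖S0.Φ (Bf a r)‖
        ≤ 1 * e * 1 * (1 - a)⁻¹ * (4 / (1 - a)) := by gcongr
      _ = 4 * e / (1 - a) ^ 2 := by field_simp

theorem nz_e2 (P : Par a e r) (S0 : Sys0 a e r H) (θ : ℝ) :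
    ‖nz S0 θ - rz (opS S0) θ - ((e : ℂ) * kr a θ) • S0.Φ (Bf a r)‖ ≤ 32 * e ^ 2 / (1 - a) ^ 5 := by
  have h6 : 0 < 1 - a := by linarith [P.a1]
  have he := P.e0
  have hζ : ‖ee 1 θ‖ = 1 := norm_ee _ _
  have n2 : (1 : ℂ) - a * ee 1 θ ≠ 0 := P.one_sub_ne (P.sph hζ)
  have h0 : dd S0 (ee 1 θ) * (nz S0 θ - rz (opS S0) θ - ((e : ℂ) * kr a θ) • S0.Φ (Bf a r)) =
      (-(e * (e * kr a θ))) • (S0.Φ (Bf a r) * S0.Φ (Bf a r)) := by
    rw [mul_sub, dd_mul P S0, mul_smul_comm, dd, add_mul, smul_one_mul, smul_mul_assoc, smul_add,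
      smul_smul, smul_smul, ← sub_sub, ← sub_smul]
    have : (a : ℂ) * e * ee 1 θ * (1 - a * ee 1 θ)⁻¹ - e * kr a θ * (1 - a * ee 1 θ) = 0 := by
      unfold kr
      field_simp
      ring
    rw [this, zero_smul, zero_sub, ← neg_smul]
    congr 1
    ring
  have h1 := norm_le_of_dd P S0 hζ h0 (c := 16 * e ^ 2 / (1 - a) ^ 4) (by positivity) ?_
  · refine h1.trans (le_of_eq ?_)
    field_simp
    ring
  · have hk : ‖kr a θ‖ ≤ ((1 - a)⁻¹) ^ 2 := by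
      unfold kr
      rw [norm_div, norm_mul, hζ, norm_pow, mul_one, div_eq_mul_inv, ← inv_pow]
      have h2 : ‖(1 : ℂ) - a * ee 1 θ‖⁻¹ ≤ (1 - a)⁻¹ := inv_anti₀ h6 (P.norm_one_sub hζ)
      calc ‖(a : ℂ)‖ * ‖(1 : ℂ) - a * ee 1 θ‖⁻¹ ^ 2 ≤ 1 * ((1 - a)⁻¹) ^ 2 := by
            gcongr
            exact P.norm_a
        _ = _ := one_mul _
    have h3 := S0.nB
    rw [norm_smul, norm_neg, norm_mul, norm_mul, Complex.norm_real, Real.norm_of_nonneg he.le]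
    calc e * (e * ‖kr a θ‖) * ‖S0.Φ (Bf a r) * S0.Φ (Bf a r)‖
        ≤ e * (e * ((1 - a)⁻¹) ^ 2) * ((4 / (1 - a)) * (4 / (1 - a))) := by
          gcongr
          refine (norm_mul_le _ _).trans ?_
          gcongr
      _ = 16 * e ^ 2 / (1 - a) ^ 4 := by
          field_simp
          ring

theorem sys_NF (P : Par a e r) (S0 : Sys0 a e r H)
    (hG : ∀ w : ℂ, w ∈ C1 a e →
      ∀ ζ : ℂ, ‖ζ‖ = 1 → 0 ≤ (conj (ζ * chid a e ζ) * (chi a e ζ - w)).re) :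
    NF a e (8 * e / (1 - a) ^ 3) (32 * e ^ 2 / (1 - a) ^ 5) (opS S0) (S0.Φ (Bf a r)) (nz S0) :=
  ⟨nz_cont P S0, nz_nonneg P S0 hG, nz_e1 P S0, nz_e2 P S0⟩

/-! ### POS and KRN -/

theorem Ca_ge (P : Par a e r) : 64 / (1 - a) ^ 5 ≤ Ca a := by
  have h6 : 0 < 1 - a := by linarith [P.a1]
  have h7 : 1 - a ≤ 1 := by linarith [P.a0]
  unfold Ca
  rw [div_le_div_iff₀ (by positivity) (by positivity)]
  have : (1 - a) ^ 6 = (1 - a) ^ 5 * (1 - a) := by ring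
  rw [this]
  have h8 : 0 < (1 - a) ^ 5 := by positivity
  nlinarith

theorem Ca_ge' (P : Par a e r) : 16 / (1 - a) ^ 4 ≤ Ca a := by
  have h6 : 0 < 1 - a := by linarith [P.a1]
  have h7 : 1 - a ≤ 1 := by linarith [P.a0]
  refine le_trans ?_ (Ca_ge P)
  rw [div_le_div_iff₀ (by positivity) (by positivity)]
  have : (1 - a) ^ 5 = (1 - a) ^ 4 * (1 - a) := by ring
  rw [this]
  have h8 : 0 < (1 - a) ^ 4 := by positivity
  nlinarith

theorem cN_le_cform (P : Par a e r) (S0 : Sys0 a e r H)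
    (hG : ∀ w : ℂ, w ∈ C1 a e →
      ∀ ζ : ℂ, ‖ζ‖ = 1 → 0 ≤ (conj (ζ * chid a e ζ) * (chi a e ζ - w)).re) (h : Hol r)
    (hpos : ∀ z ∈ closedBall (0 : ℂ) 1, 0 ≤ (fn h z).re) (n : H) :
    cN (nz S0) (fn h) n ≤ cform S0.Φ a e h n := by
  have h1 := cN_le (sys_sr P.r1 S0) (sys_NF P S0 hG) P.r1 (fn_differentiableOn h) hpos
    (by linarith [P.a0]) P.a1 n
  refine h1.trans ?_
  rw [cform, ← sys_phi P.r1]
  have h0 := hpos 0 (by simp)
  have h2 := Ca_ge P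
  have h3 : 32 * e ^ 2 / (1 - a) ^ 5 * (2 * (fn h 0).re) * ‖n‖ ^ 2 =
      (64 / (1 - a) ^ 5) * (e ^ 2 * (fn h 0).re * ‖n‖ ^ 2) := by ring
  rw [h3]
  have h4 := mul_le_mul_of_nonneg_right h2
    (by positivity : 0 ≤ e ^ 2 * (fn h 0).re * ‖n‖ ^ 2)
  linarith

end sys

theorem pos_st (hGC : GC1Statement) : POSStatement := by
  intro a ha ha1
  obtain ⟨e0, he0, hG⟩ := hGC a ha ha1
  have h6 : 0 < 1 - a := by linarith
  refine ⟨min e0 ((1 - a) ^ 2 / 8), lt_min he0 (by positivity), fun e he he1 => ?_⟩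
  intro H _ _ _ r hr hr2 S0 h hpos n
  have P : Par a e r := ⟨ha, ha1, he, he1.trans_le (min_le_right _ _), hr, hr2⟩
  have hG' := fun w hw => ((hG e he (he1.trans_le (min_le_left _ _))).2.2.1 w).1 hw
  exact (cN_nonneg (sys_NF P S0 hG') hpos n).trans (cN_le_cform P S0 hG' h hpos n)

theorem krn_st (hGC : GC1Statement) : KRNStatement := by
  intro a ha ha1
  obtain ⟨e0, he0, hG⟩ := hGC a ha ha1
  have h6 : 0 < 1 - a := by linarith
  refine ⟨min e0 ((1 - a) ^ 2 / 8), lt_min he0 (by positivity), fun e he he1 => ?_⟩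
  intro H _ _ _ r hr hr2 S0 h hpos
  have P : Par a e r := ⟨ha, ha1, he, he1.trans_le (min_le_right _ _), hr, hr2⟩
  have hG' := fun w hw => ((hG e he (he1.trans_le (min_le_left _ _))).2.2.1 w).1 hw
  have hNF := sys_NF P S0 hG'
  have hS := sys_sr hr S0
  have hd := fn_differentiableOn h
  have ha0 : 0 ≤ a := by linarith
  have hh0 := hpos 0 (by simp)
  have am : (a : ℂ) ∈ ball (0 : ℂ) r := ball_subset_ball hr.le (a_mem ha0 ha1)
  have hds : DifferentiableOn ℂ (dslope (fn h) a) (ball 0 r) :=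
    (Complex.differentiableOn_dslope (isOpen_ball.mem_nhds am)).2 hd
  have hcc : (1 - a)⁻¹ * (8 * e / (1 - a) ^ 3) * (2 * (fn h 0).re) ≤ Ca a * e * (fn h 0).re := by
    have h7 : (1 - a)⁻¹ * (8 * e / (1 - a) ^ 3) * (2 * (fn h 0).re) =
        16 / (1 - a) ^ 4 * (e * (fn h 0).re) := by field_simp; ring
    rw [h7, mul_assoc (Ca a)]
    exact mul_le_mul_of_nonneg_right (Ca_ge' P) (mul_nonneg he.le hh0)
  have i1 : S0.Φ (Bf a r * (h + algebraMap ℂ (Hol r) (conj (fn h a)))) =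
      phi (opS S0) (fun z => (1 - (a : ℂ) * z)⁻¹) *
        (phi (opS S0) (fn h) + conj (fn h a) • (1 : H →L[ℂ] H)) := by
    rw [map_mul, map_add, AlgHom.commutes, sys_B P, sys_phi hr, Algebra.algebraMap_eq_smul_one]
  have i2 : S0.Φ (h + algebraMap ℂ (Hol r) (conj (fn h 0)) + (a : ℂ) • dsl h a) =
      phi (opS S0) (fun z => fn h z + a * dslope (fn h) a z) +
        conj (fn h 0) • (1 : H →L[ℂ] H) := by
    rw [map_add, map_add, AlgHom.commutes, map_smul, sys_phi hr, sys_phi hr, 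
      Algebra.algebraMap_eq_smul_one, hS.phi_add (hd_of hr hd) (HD.smul _ (hd_of hr hds)),
      hS.phi_smul _ (hd_of hr hds)]
    have : phi (opS S0) (fn (dsl h a)) = phi (opS S0) (dslope (fn h) a) := by
      refine phi_congr fun z hz => ?_
      exact fn_hol hds (ball_subset_ball hr.le hz)
    rw [this]
    abel
  refine ⟨M1 (nz S0) (fn h) a - S0.Φ (Bf a r * (h + algebraMap ℂ (Hol r) (conj (fn h a)))),
    M2 (nz S0) (fn h) a - S0.Φ (h + algebraMap ℂ (Hol r) (conj (fn h 0)) + (a : ℂ) • dsl h a),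
    ?_, ?_, fun n n' => ?_⟩
  · rw [i1]
    exact (M1_close hS hNF hr hd hpos ha0 ha1).trans hcc
  · rw [i2]
    exact (M2_close hS hNF hr hd hpos ha0 ha1).trans hcc
  · rw [add_sub_cancel, add_sub_cancel]
    refine (kernel_ineq hNF hr hd hpos ha0 ha1 n n').trans ?_
    rw [← div_eq_mul_inv]
    have j1 := Real.sqrt_le_sqrt (cN_le_cform P S0 hG' h hpos n')
    have j2 := Real.sqrt_le_sqrt (cN_le_cform P S0 hG' h hpos n)
    gcongr

end C3N.H75
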