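import Mathlib

/-!
# A functional calculus for functions holomorphic in the open unit disc

`S` is an operator with `‖S^n‖ ≤ C s^n`, `s < 1`, and `phi S f = ∑ cₙ S^n`, `cₙ` the Taylor
coefficients of `f` at `0`.  `phi S` is multiplicative on functions holomorphic in `ball 0 1`, and
`‖phi S f‖ ≤ C_S sup_{closedBall 0 σ} |f|` for some `σ < 1`.
-/

open Complex Metric Set Filter Topology

namespace C3N.H75

/-- Taylor coefficients at `0` -/
noncomputable def cf (f : ℂ → ℂ) (n : ℕ) : ℂ := (n.factorial : ℂ)⁻¹ * iteratedDeriv n f 0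

/-- holomorphic in the open unit disc -/
def HD (f : ℂ → ℂ) : Prop := DifferentiableOn ℂ f (ball 0 1)

namespace HD

variable {f g : ℂ → ℂ}

theorem const (c : ℂ) : HD fun _ => c := differentiableOn_const c

theorem id : HD fun z => z := differentiableOn_id

theorem add (hf : HD f) (hg : HD g) : HD fun z => f z + g z := DifferentiableOn.add hf hg

theorem sub (hf : HD f) (hg : HD g) : HD fun z => f z - g z := DifferentiableOn.sub hf hg

theorem mul (hf : HD f) (hg : HD g) : HD fun z => f z * g z := DifferentiableOn.mul hf hg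

theorem neg (hf : HD f) : HD fun z => -f z := DifferentiableOn.neg hf

theorem smul (c : ℂ) (hf : HD f) : HD fun z => c * f z := (const c).mul hf

theorem pow (hf : HD f) (n : ℕ) : HD fun z => f z ^ n := DifferentiableOn.pow hf n

theorem inv (hf : HD f) (h0 : ∀ z ∈ ball (0 : ℂ) 1, f z ≠ 0) : HD fun z => (f z)⁻¹ :=
  DifferentiableOn.inv hf h0

theorem div (hf : HD f) (hg : HD g) (h0 : ∀ z ∈ ball (0 : ℂ) 1, g z ≠ 0) :
    HD fun z => f z / g z := DifferentiableOn.div hf hg h0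

theorem exp (hf : HD f) : HD fun z => Complex.exp (f z) := DifferentiableOn.cexp hf

theorem congr (hf : HD f) (h : EqOn g f (ball 0 1)) : HD g := DifferentiableOn.congr hf h

theorem analyticAt (hf : HD f) {z : ℂ} (hz : z ∈ ball (0 : ℂ) 1) : AnalyticAt ℂ f z :=
  hf.analyticOnNhd isOpen_ball z hz

theorem contDiffAt (hf : HD f) (n : WithTop ℕ∞) : ContDiffAt ℂ n f 0 :=
  (hf.analyticAt (mem_ball_self one_pos)).contDiffAt

theorem continuousOn (hf : HD f) : ContinuousOn f (ball 0 1) := DifferentiableOn.continuousOn hf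

theorem diffContOnCl (hf : HD f) {σ : ℝ} (hσ : σ < 1) : DiffContOnCl ℂ f (ball 0 σ) := by
  have h1 : closedBall (0 : ℂ) σ ⊆ ball 0 1 := closedBall_subset_ball hσ
  exact DifferentiableOn.diffContOnCl ((DifferentiableOn.mono hf h1).mono closure_ball_subset_closedBall)

/-- boundedness on smaller discs -/
theorem exists_bound (hf : HD f) {σ : ℝ} (hσ : σ < 1) :
    ∃ M : ℝ, 0 < M ∧ ∀ z ∈ closedBall (0 : ℂ) σ, ‖f z‖ ≤ M := by
  have h1 : closedBall (0 : ℂ) σ ⊆ ball 0 1 := closedBall_subset_ball hσ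
  obtain ⟨M, hM⟩ := (isCompact_closedBall (0 : ℂ) σ).exists_bound_of_continuousOn
    (hf.continuousOn.mono h1)
  exact ⟨max M 1, lt_max_of_lt_right one_pos, fun z hz => (hM z hz).trans (le_max_left _ _)⟩

end HD

section coeff

variable {f g : ℂ → ℂ}

theorem norm_cf_le' {r : ℝ} (hf : DifferentiableOn ℂ f (ball 0 r)) {σ M : ℝ} (hσ0 : 0 < σ)
    (hσ : σ < r) (hM : ∀ z ∈ closedBall (0 : ℂ) σ, ‖f z‖ ≤ M) (n : ℕ) :
    ‖cf f n‖ ≤ M * σ⁻¹ ^ n := by
  have h0 : closedBall (0 : ℂ) σ ⊆ ball 0 r := closedBall_subset_ball hσ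
  have h1 := norm_iteratedDeriv_le_of_forall_mem_sphere_norm_le n hσ0
    (DifferentiableOn.diffContOnCl ((DifferentiableOn.mono hf h0).mono closure_ball_subset_closedBall))
    (fun z hz => hM z (sphere_subset_closedBall hz))
  have hn : (0 : ℝ) < n.factorial := by exact_mod_cast n.factorial_pos
  rw [cf, norm_mul, norm_inv, norm_natCast]
  calc (n.factorial : ℝ)⁻¹ * ‖iteratedDeriv n f 0‖
      ≤ (n.factorial : ℝ)⁻¹ * (n.factorial * M / σ ^ n) := by gcongr
    _ = M * σ⁻¹ ^ n := by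
        rw [inv_pow]; field_simp

theorem norm_cf_le (hf : HD f) {σ M : ℝ} (hσ0 : 0 < σ) (hσ : σ < 1)
    (hM : ∀ z ∈ closedBall (0 : ℂ) σ, ‖f z‖ ≤ M) (n : ℕ) : ‖cf f n‖ ≤ M * σ⁻¹ ^ n :=
  norm_cf_le' hf hσ0 hσ hM n

theorem exists_norm_cf_le {r : ℝ} (hr : 1 < r) (hf : DifferentiableOn ℂ f (ball 0 r)) :
    ∃ M s : ℝ, 0 < M ∧ 0 < s ∧ s < 1 ∧ ∀ n, ‖cf f n‖ ≤ M * s ^ n := by
  obtain ⟨σ, hσ1, hσ2⟩ := exists_between hr
  have hσ0 : 0 < σ := one_pos.trans hσ1
  have h0 : closedBall (0 : ℂ) σ ⊆ ball 0 r := closedBall_subset_ball hσ2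
  obtain ⟨M, hM⟩ := (isCompact_closedBall (0 : ℂ) σ).exists_bound_of_continuousOn
    (hf.continuousOn.mono h0)
  refine ⟨max M 1, σ⁻¹, lt_max_of_lt_right one_pos, inv_pos.2 hσ0, inv_lt_one_of_one_lt₀ hσ1,
    fun n => ?_⟩
  exact norm_cf_le' hf hσ0 hσ2 (fun z hz => (hM z hz).trans (le_max_left _ _)) n

theorem summable_norm_cf {r : ℝ} (hr : 1 < r) (hf : DifferentiableOn ℂ f (ball 0 r)) :
    Summable fun n => ‖cf f n‖ := by
  obtain ⟨M, s, hM, hs0, hs1, h⟩ := exists_norm_cf_le hr hf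
  exact Summable.of_nonneg_of_le (fun n => norm_nonneg _) h
    ((summable_geometric_of_lt_one hs0.le hs1).mul_left _)

theorem hasSum_cf' {r : ℝ} (hf : DifferentiableOn ℂ f (ball 0 r)) {z : ℂ}
    (hz : z ∈ ball (0 : ℂ) r) : HasSum (fun n => cf f n * z ^ n) (f z) := by
  have h := hasSum_taylorSeries_on_ball hf hz
  have e : (fun n => cf f n * z ^ n) =
      fun n : ℕ => ((n.factorial : ℂ))⁻¹ • (z - 0) ^ n • iteratedDeriv n f 0 := by
    funext n
    rw [cf, sub_zero, smul_eq_mul, smul_eq_mul]; ring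
  rw [e]; exact h

theorem cf_deriv (f : ℂ → ℂ) (n : ℕ) : cf (deriv f) n = (n + 1) * cf f (n + 1) := by
  rw [cf, cf, ← iteratedDeriv_succ', Nat.factorial_succ]
  have h3 : (n.factorial : ℂ) ≠ 0 := by exact_mod_cast n.factorial_ne_zero
  have h4 : ((n : ℂ) + 1) ≠ 0 := by exact_mod_cast Nat.succ_ne_zero n
  push_cast
  field_simp

theorem hasSum_cf_deriv (hf : HD f) {a : ℂ} (ha : a ∈ ball (0 : ℂ) 1) :
    HasSum (fun n => cf f n * (n * a ^ n)) (a * deriv f a) := by
  have h1 : HD (deriv f) := DifferentiableOn.deriv hf isOpen_ball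
  have h2 := (hasSum_cf' h1 ha).mul_left a
  have e : (fun n => a * (cf (deriv f) n * a ^ n)) =
      fun n : ℕ => (fun m : ℕ => cf f m * (m * a ^ m)) (n + 1) := by
    funext n
    simp only [cf_deriv]
    push_cast
    ring
  rw [e] at h2
  have h3 := (hasSum_nat_add_iff (f := fun m : ℕ => cf f m * (m * a ^ m)) 1).1 h2
  simpa using h3

theorem hasSum_cf (hf : HD f) {z : ℂ} (hz : z ∈ ball (0 : ℂ) 1) :
    HasSum (fun n => cf f n * z ^ n) (f z) := by
  have h := hasSum_taylorSeries_on_ball hf hz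
  have e : (fun n => cf f n * z ^ n) =
      fun n : ℕ => ((n.factorial : ℂ))⁻¹ • (z - 0) ^ n • iteratedDeriv n f 0 := by
    funext n
    rw [cf, sub_zero, smul_eq_mul, smul_eq_mul]; ring
  rw [e]; exact h

theorem cf_congr (h : EqOn f g (ball 0 1)) (n : ℕ) : cf f n = cf g n := by
  rw [cf, cf, Filter.EventuallyEq.iteratedDeriv_eq n]
  filter_upwards [isOpen_ball.mem_nhds (mem_ball_self one_pos)] with z hz using h hz

theorem cf_zero' (f : ℂ → ℂ) : cf f 0 = f 0 := by simp [cf]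

theorem cf_add (hf : HD f) (hg : HD g) (n : ℕ) :
    cf (fun z => f z + g z) n = cf f n + cf g n := by
  rw [cf, cf, cf, iteratedDeriv_fun_add (hf.contDiffAt _) (hg.contDiffAt _)]; ring

theorem cf_smul (c : ℂ) (f : ℂ → ℂ) (n : ℕ) :
    cf (fun z => c * f z) n = c * cf f n := by
  rw [cf, cf, iteratedDeriv_const_mul_field]; ring

theorem cf_mul (hf : HD f) (hg : HD g) (n : ℕ) :
    cf (fun z => f z * g z) n = ∑ kl ∈ Finset.HasAntidiagonal.antidiagonal n, cf f kl.1 * cf g kl.2 := by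
  rw [cf, iteratedDeriv_fun_mul (hf.contDiffAt _) (hg.contDiffAt _),
    Finset.Nat.sum_antidiagonal_eq_sum_range_succ_mk, Finset.mul_sum]
  refine Finset.sum_congr rfl fun i hi => ?_
  have hin : i ≤ n := Nat.lt_succ_iff.1 (Finset.mem_range.1 hi)
  have h1 := Nat.choose_mul_factorial_mul_factorial hin
  have h2 : (n.choose i : ℂ) * i.factorial * (n - i).factorial = n.factorial := by
    exact_mod_cast h1
  have h3 : (i.factorial : ℂ) ≠ 0 := by exact_mod_cast i.factorial_ne_zero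
  have h4 : ((n - i).factorial : ℂ) ≠ 0 := by exact_mod_cast (n - i).factorial_ne_zero
  have h5 : (n.factorial : ℂ) ≠ 0 := by exact_mod_cast n.factorial_ne_zero
  have h6 : (n.choose i : ℂ) ≠ 0 := by exact_mod_cast (Nat.choose_pos hin).ne'
  simp only [cf]
  rw [← h2] at h5 ⊢
  field_simp

theorem cf_const (c : ℂ) (n : ℕ) : cf (fun _ => c) n = if n = 0 then c else 0 := by
  rw [cf, iteratedDeriv_const]
  split_ifs with h
  · subst h; simp
  · simp

theorem cf_id (n : ℕ) : cf (fun z => z) n = if n = 1 then 1 else 0 := by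
  rw [cf, iteratedDeriv_fun_id_zero]
  split_ifs with h
  · subst h; simp
  · simp

theorem one_sub_ne_zero {l : ℂ} (hl : ‖l‖ ≤ 1) : ∀ z ∈ ball (0 : ℂ) 1, 1 - l * z ≠ 0 := by
  intro z hz h
  have h1 : ‖l * z‖ = 1 := by rw [← sub_eq_zero.1 h, norm_one]
  rw [norm_mul] at h1
  have h2 : ‖z‖ < 1 := by simpa using hz
  nlinarith [norm_nonneg z, norm_nonneg l]

theorem cf_inv_one_sub {l : ℂ} (hl : ‖l‖ ≤ 1) (n : ℕ) :
    cf (fun z => (1 - l * z)⁻¹) n = l ^ n := by
  have h0 : ∀ z ∈ ball (0 : ℂ) 1, 1 - l * z ≠ 0 := one_sub_ne_zero hl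
  have hg : HD fun z => 1 - l * z := (HD.const 1).sub (HD.smul l HD.id)
  have hgc : ∀ k, cf (fun z => 1 - l * z) k = if k = 0 then 1 else if k = 1 then -l else 0 := by
    intro k
    have e : (fun z : ℂ => 1 - l * z) = fun z => (fun _ => (1 : ℂ)) z + (fun w => (-l) * (fun u => u) w) z := by
      funext z; ring
    rw [e, cf_add (HD.const 1) (HD.smul (-l) HD.id), cf_const, cf_smul, cf_id]
    rcases k with _ | _ | k <;> simp
  induction n with
  | zero => rw [cf_zero']; simp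
  | succ n ih =>
    have h1 : cf (fun z => (1 - l * z)⁻¹ * (1 - l * z)) (n + 1) = 0 := by
      rw [cf_congr (g := fun _ => 1) (fun z hz => inv_mul_cancel₀ (h0 z hz)), cf_const]
      simp
    rw [cf_mul (hg.inv h0) hg, Finset.Nat.sum_antidiagonal_eq_sum_range_succ_mk,
      Finset.sum_range_succ, Finset.sum_range_succ, Finset.sum_eq_zero] at h1
    · simp only [hgc] at h1
      rw [show n + 1 - n = 1 by omega, show n + 1 - (n + 1) = 0 by omega, ih] at h1
      simp at h1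
      rw [pow_succ]
      linear_combination h1
    · intro i hi
      have : i < n := Finset.mem_range.1 hi
      simp only [hgc]
      rw [if_neg (by omega), if_neg (by omega), mul_zero]

end coeff

section calculus

variable {H : Type*} [NormedAddCommGroup H] [InnerProductSpace ℂ H]

/-- geometric decay of the powers -/
def SR (S : H →L[ℂ] H) : Prop := ∃ C s : ℝ, 0 < C ∧ 0 < s ∧ s < 1 ∧ ∀ n, ‖S ^ n‖ ≤ C * s ^ n

/-- the calculus -/
noncomputable def phi (S : H →L[ℂ] H) (f : ℂ → ℂ) : H →L[ℂ] H := ∑' n, cf f n • S ^ n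

variable {S : H →L[ℂ] H} {f g : ℂ → ℂ}

theorem SR.key (hS : SR S) : ∃ K σ : ℝ, 0 < K ∧ 0 < σ ∧ σ < 1 ∧ ∀ (f : ℂ → ℂ), HD f →
    ∀ M : ℝ, (∀ z ∈ closedBall (0 : ℂ) σ, ‖f z‖ ≤ M) →
      (Summable fun n => ‖cf f n • S ^ n‖) ∧ ∑' n, ‖cf f n • S ^ n‖ ≤ K * M := by
  obtain ⟨C, s, hC, hs0, hs1, hb⟩ := hS
  obtain ⟨σ, hσ1, hσ2⟩ := exists_between hs1
  have hσ0 : 0 < σ := hs0.trans hσ1
  have hr : s / σ < 1 := (div_lt_one hσ0).2 hσ1
  have hr0 : 0 ≤ s / σ := by positivity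
  refine ⟨C * (1 - s / σ)⁻¹, σ, mul_pos hC (inv_pos.2 (by linarith)), hσ0, hσ2, fun f hf M hM => ?_⟩
  have hb2 : ∀ n, ‖cf f n • S ^ n‖ ≤ C * M * (s / σ) ^ n := fun n => by
    rw [norm_smul]
    have h1 := norm_cf_le hf hσ0 hσ2 hM n
    have h2 := hb n
    have h3 : 0 ≤ M * σ⁻¹ ^ n := (norm_nonneg _).trans h1
    calc ‖cf f n‖ * ‖S ^ n‖ ≤ (M * σ⁻¹ ^ n) * (C * s ^ n) :=
          mul_le_mul h1 h2 (norm_nonneg _) h3
      _ = C * M * (s / σ) ^ n := by rw [div_pow, inv_pow]; field_simp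
  have hsum : Summable fun n => C * M * (s / σ) ^ n :=
    (summable_geometric_of_lt_one hr0 hr).mul_left _
  refine ⟨Summable.of_nonneg_of_le (fun n => norm_nonneg _) hb2 hsum, ?_⟩
  refine (Summable.tsum_le_tsum hb2 (Summable.of_nonneg_of_le (fun n => norm_nonneg _) hb2 hsum)
    hsum).trans (le_of_eq ?_)
  rw [tsum_mul_left, tsum_geometric_of_lt_one hr0 hr]; ring

theorem SR.summable_norm (hS : SR S) (hf : HD f) : Summable fun n => ‖cf f n • S ^ n‖ := by
  obtain ⟨K, σ, hK, hσ0, hσ1, h⟩ := hS.key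
  obtain ⟨M, hM0, hM⟩ := hf.exists_bound hσ1
  exact (h f hf M hM).1

theorem SR.summable [CompleteSpace H] (hS : SR S) (hf : HD f) :
    Summable fun n => cf f n • S ^ n := (hS.summable_norm hf).of_norm

/-- the norm bound -/
theorem SR.bound [CompleteSpace H] (hS : SR S) : ∃ K σ : ℝ, 0 < K ∧ 0 < σ ∧ σ < 1 ∧ ∀ (f : ℂ → ℂ), HD f →
    ∀ M : ℝ, (∀ z ∈ closedBall (0 : ℂ) σ, ‖f z‖ ≤ M) → ‖phi S f‖ ≤ K * M := by
  obtain ⟨K, σ, hK, hσ0, hσ1, h⟩ := hS.key
  refine ⟨K, σ, hK, hσ0, hσ1, fun f hf M hM => ?_⟩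
  exact (norm_tsum_le_tsum_norm (h f hf M hM).1).trans (h f hf M hM).2

theorem phi_congr (h : EqOn f g (ball 0 1)) : phi S f = phi S g := by
  rw [phi, phi]; simp_rw [cf_congr h]

theorem SR.phi_add [CompleteSpace H] (hS : SR S) (hf : HD f) (hg : HD g) :
    phi S (fun z => f z + g z) = phi S f + phi S g := by
  rw [phi, phi, phi, ← (hS.summable hf).tsum_add (hS.summable hg)]
  refine tsum_congr fun n => ?_
  rw [cf_add hf hg, add_smul]

theorem SR.phi_smul [CompleteSpace H] (hS : SR S) (c : ℂ) (hf : HD f) :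
    phi S (fun z => c * f z) = c • phi S f := by
  rw [phi, phi, ← (hS.summable hf).tsum_const_smul]
  refine tsum_congr fun n => ?_
  rw [cf_smul c f, mul_smul]

theorem SR.phi_mul [CompleteSpace H] (hS : SR S) (hf : HD f) (hg : HD g) :
    phi S (fun z => f z * g z) = phi S f * phi S g := by
  rw [phi, phi, phi, tsum_mul_tsum_eq_tsum_sum_antidiagonal_of_summable_norm
    (hS.summable_norm hf) (hS.summable_norm hg)]
  refine tsum_congr fun n => ?_
  rw [cf_mul hf hg, Finset.sum_smul]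
  refine Finset.sum_congr rfl fun kl hkl => ?_
  rw [smul_mul_smul_comm, ← pow_add, Finset.HasAntidiagonal.mem_antidiagonal.1 hkl]

theorem phi_const (S : H →L[ℂ] H) (c : ℂ) : phi S (fun _ => c) = c • (1 : H →L[ℂ] H) := by
  rw [phi, tsum_eq_single 0]
  · rw [cf_const]; simp
  · intro n hn
    rw [cf_const, if_neg hn, zero_smul]

theorem phi_one (S : H →L[ℂ] H) : phi S (fun _ => 1) = 1 := by
  rw [phi_const, one_smul]

theorem phi_id (S : H →L[ℂ] H) : phi S (fun z => z) = S := by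
  rw [phi, tsum_eq_single 1]
  · rw [cf_id]; simp
  · intro n hn
    rw [cf_id, if_neg hn, zero_smul]

theorem SR.phi_neg [CompleteSpace H] (hS : SR S) (hf : HD f) :
    phi S (fun z => -f z) = -phi S f := by
  have := hS.phi_smul (-1) hf
  simpa using this

theorem SR.phi_sub [CompleteSpace H] (hS : SR S) (hf : HD f) (hg : HD g) :
    phi S (fun z => f z - g z) = phi S f - phi S g := by
  have h := hS.phi_add hf hg.neg
  rw [hS.phi_neg hg] at h
  simpa [sub_eq_add_neg] using h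

theorem SR.phi_comm [CompleteSpace H] (hS : SR S) (hf : HD f) (hg : HD g) :
    phi S f * phi S g = phi S g * phi S f := by
  rw [← hS.phi_mul hf hg, ← hS.phi_mul hg hf]
  exact phi_congr fun z _ => mul_comm _ _

theorem SR.phi_pow [CompleteSpace H] (hS : SR S) (hf : HD f) (n : ℕ) :
    phi S (fun z => f z ^ n) = phi S f ^ n := by
  induction n with
  | zero => simpa using phi_one S
  | succ n ih =>
    rw [pow_succ, ← ih, ← hS.phi_mul (hf.pow n) hf]
    exact phi_congr fun z _ => pow_succ _ _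

theorem SR.phi_inv_mul [CompleteSpace H] (hS : SR S) (hf : HD f)
    (h0 : ∀ z ∈ ball (0 : ℂ) 1, f z ≠ 0) : phi S (fun z => (f z)⁻¹) * phi S f = 1 := by
  rw [← hS.phi_mul (hf.inv h0) hf, ← phi_one S]
  exact phi_congr fun z hz => inv_mul_cancel₀ (h0 z hz)

theorem SR.phi_mul_inv [CompleteSpace H] (hS : SR S) (hf : HD f)
    (h0 : ∀ z ∈ ball (0 : ℂ) 1, f z ≠ 0) : phi S f * phi S (fun z => (f z)⁻¹) = 1 := by
  rw [← hS.phi_mul hf (hf.inv h0), ← phi_one S]
  exact phi_congr fun z hz => mul_inv_cancel₀ (h0 z hz)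

/-- sums of uniformly summable series -/
theorem hd_tsum {f : ℕ → ℂ → ℂ} (hf : ∀ n, HD (f n)) {M : ℕ → ℝ} (hM : Summable M)
    (hb : ∀ n, ∀ z ∈ ball (0 : ℂ) 1, ‖f n z‖ ≤ M n) : HD fun z => ∑' n, f n z :=
  differentiableOn_tsum_of_summable_norm hM hf isOpen_ball hb

theorem hd_sum {ι : Type*} (s : Finset ι) {f : ι → ℂ → ℂ} (hf : ∀ n, HD (f n)) :
    HD fun z => ∑ n ∈ s, f n z := by
  classical
  induction s using Finset.induction_on with
  | empty => simpa using HD.const 0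
  | insert a s ha ih =>
    simp_rw [Finset.sum_insert ha]
    exact (hf a).add ih

theorem SR.phi_sum [CompleteSpace H] (hS : SR S) {ι : Type*} (s : Finset ι) {f : ι → ℂ → ℂ}
    (hf : ∀ n, HD (f n)) : phi S (fun z => ∑ n ∈ s, f n z) = ∑ n ∈ s, phi S (f n) := by
  classical
  induction s using Finset.induction_on with
  | empty => simpa using phi_const S 0
  | insert a s ha ih =>
    simp_rw [Finset.sum_insert ha]
    rw [hS.phi_add (hf a) (hd_sum s hf), ih]

theorem SR.phi_tsum [CompleteSpace H] (hS : SR S) {f : ℕ → ℂ → ℂ} (hf : ∀ n, HD (f n))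
    {M : ℕ → ℝ} (hM : Summable M) (hb : ∀ n, ∀ z ∈ ball (0 : ℂ) 1, ‖f n z‖ ≤ M n) :
    HasSum (fun n => phi S (f n)) (phi S (fun z => ∑' n, f n z)) := by
  obtain ⟨K, σ, hK, hσ0, hσ1, hK2⟩ := hS.bound
  have hu := tendstoUniformlyOn_tsum hM hb
  have hF := hd_tsum hf hM hb
  rw [HasSum, Metric.tendsto_nhds]
  intro ε hε
  rw [Metric.tendstoUniformlyOn_iff] at hu
  filter_upwards [hu (ε / (2 * K)) (by positivity)] with s hs
  rw [dist_eq_norm, ← hS.phi_sum s hf, ← hS.phi_sub (hd_sum s hf) hF]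
  have := hK2 _ ((hd_sum s hf).sub hF) (ε / (2 * K)) fun z hz => by
    have h1 := hs z (closedBall_subset_ball hσ1 hz)
    rw [dist_comm, dist_eq_norm] at h1
    exact h1.le
  refine this.trans_lt ?_
  have : K * (ε / (2 * K)) = ε / 2 := by field_simp
  rw [this]; linarith

/-- continuity of the calculus -/
theorem SR.phi_tendsto [CompleteSpace H] (hS : SR S) {ι : Type*} {l : Filter ι} {F : ι → ℂ → ℂ}
    (hF : ∀ i, HD (F i)) (hf : HD f)
    (hu : ∀ σ < 1, TendstoUniformlyOn F f l (closedBall 0 σ)) :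
    Tendsto (fun i => phi S (F i)) l (𝓝 (phi S f)) := by
  obtain ⟨K, σ, hK, hσ0, hσ1, hK2⟩ := hS.bound
  have hu := hu σ hσ1
  rw [Metric.tendsto_nhds]
  intro ε hε
  rw [Metric.tendstoUniformlyOn_iff] at hu
  filter_upwards [hu (ε / (2 * K)) (by positivity)] with i hs
  rw [dist_eq_norm, ← hS.phi_sub (hF i) hf]
  have := hK2 _ ((hF i).sub hf) (ε / (2 * K)) fun z hz => by
    have h1 := hs z hz
    rw [dist_comm, dist_eq_norm] at h1
    exact h1.le
  refine this.trans_lt ?_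
  have : K * (ε / (2 * K)) = ε / 2 := by field_simp
  rw [this]; linarith

/-- the resolvent -/
theorem SR.resolvent [CompleteSpace H] (hS : SR S) {l : ℂ} (hl : ‖l‖ ≤ 1) :
    phi S (fun z => (1 - l * z)⁻¹) * (1 - l • S) = 1 ∧
      (1 - l • S) * phi S (fun z => (1 - l * z)⁻¹) = 1 := by
  have h0 := one_sub_ne_zero hl
  have hg : HD fun z => 1 - l * z := (HD.const 1).sub (HD.smul l HD.id)
  have e : phi S (fun z => 1 - l * z) = 1 - l • S := by
    rw [hS.phi_sub (HD.const 1) (HD.smul l HD.id), phi_one, hS.phi_smul l HD.id, phi_id]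
  rw [← e]
  exact ⟨hS.phi_inv_mul hg h0, hS.phi_mul_inv hg h0⟩

theorem SR.hasSum_resolvent [CompleteSpace H] (hS : SR S) {l : ℂ} (hl : ‖l‖ ≤ 1) :
    HasSum (fun n => l ^ n • S ^ n) (phi S (fun z => (1 - l * z)⁻¹)) := by
  have h0 := one_sub_ne_zero hl
  have hg : HD fun z => 1 - l * z := (HD.const 1).sub (HD.smul l HD.id)
  have h1 := (hS.summable (hg.inv h0)).hasSum
  have e : (fun n => cf (fun z => (1 - l * z)⁻¹) n • S ^ n) = fun n => l ^ n • S ^ n := by
    funext n; rw [cf_inv_one_sub hl]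
  rw [phi, e]; rw [e] at h1
  exact h1

end calculus

end C3N.H75
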