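import Pool.Agent.Lib.MP_c3d375_an.Kato
import Pool.Agent.Lib.MP_c3d375_an.Neg.H75.Cal

/-!
# Means over the circle
-/

open Complex Metric Set Filter Topology MeasureTheory ComplexConjugate
open Pool.Agent.Lib.MP_c3d375_an (ee ee_zero ee_add norm_ee continuous_ee conj_ee ee_natCast integral_ee)

namespace C3N.H75

section avg

variable {E : Type*} [NormedAddCommGroup E] [NormedSpace ℂ E]

/-- mean over the circle -/
noncomputable def avg (F : ℝ → E) : E := (2 * Real.pi : ℂ)⁻¹ • ∫ θ in (0 : ℝ)..2 * Real.pi, F θ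

theorem avg_congr {F G : ℝ → E} (h : ∀ θ, F θ = G θ) : avg F = avg G := by
  rw [show F = G from funext h]

theorem avg_add {F G : ℝ → E} (hF : Continuous F) (hG : Continuous G) :
    avg (fun θ => F θ + G θ) = avg F + avg G := by
  rw [avg, avg, avg, intervalIntegral.integral_add (hF.intervalIntegrable _ _)
    (hG.intervalIntegrable _ _), smul_add]

theorem avg_sub {F G : ℝ → E} (hF : Continuous F) (hG : Continuous G) :
    avg (fun θ => F θ - G θ) = avg F - avg G := by
  rw [avg, avg, avg, intervalIntegral.integral_sub (hF.intervalIntegrable _ _)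
    (hG.intervalIntegrable _ _), smul_sub]

theorem avg_smul (c : ℂ) (F : ℝ → E) : avg (fun θ => c • F θ) = c • avg F := by
  rw [avg, avg, intervalIntegral.integral_smul, smul_comm]

theorem avg_smul_const [CompleteSpace E] (F : ℝ → ℂ) (x : E) : avg (fun θ => F θ • x) = avg F • x := by
  rw [avg, avg, intervalIntegral.integral_smul_const, smul_smul, smul_eq_mul]

theorem avg_clm {E' : Type*} [NormedAddCommGroup E'] [NormedSpace ℂ E'] [CompleteSpace E]
    [CompleteSpace E'] (L : E →L[ℂ] E') {F : ℝ → E} (hF : Continuous F) :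
    avg (fun θ => L (F θ)) = L (avg F) := by
  rw [avg, avg, ContinuousLinearMap.intervalIntegral_comp_comm L (hF.intervalIntegrable _ _),
    map_smul]

theorem avg_conj (F : ℝ → ℂ) : avg (fun θ => conj (F θ)) = conj (avg F) := by
  have h : ∫ θ in (0 : ℝ)..2 * Real.pi, conj (F θ) = conj (∫ θ in (0 : ℝ)..2 * Real.pi, F θ) := by
    rw [intervalIntegral.integral_of_le (by positivity), intervalIntegral.integral_of_le
      (by positivity), integral_conj]
  rw [avg, avg, h, smul_eq_mul, smul_eq_mul, map_mul]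
  congr 1
  rw [map_inv₀, map_mul, conj_ofReal, Complex.conj_ofNat]

theorem avg_ofReal (F : ℝ → ℝ) : avg (fun θ => ((F θ : ℝ) : ℂ)) =
    (((2 * Real.pi)⁻¹ * ∫ θ in (0 : ℝ)..2 * Real.pi, F θ : ℝ) : ℂ) := by
  rw [avg, intervalIntegral.integral_ofReal]
  push_cast; rfl

theorem norm_avg_le {F : ℝ → E} {w : ℝ → ℝ} (hw : Continuous w) (h : ∀ θ, ‖F θ‖ ≤ w θ) :
    ‖avg F‖ ≤ (2 * Real.pi)⁻¹ * ∫ θ in (0 : ℝ)..2 * Real.pi, w θ := by
  rw [avg, norm_smul]
  have h1 : ‖(2 * Real.pi : ℂ)⁻¹‖ = (2 * Real.pi)⁻¹ := by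
    rw [norm_inv, norm_mul, Complex.norm_real, Real.norm_of_nonneg Real.pi_pos.le]
    simp
  rw [h1]
  refine mul_le_mul_of_nonneg_left ?_ (by positivity)
  exact intervalIntegral.norm_integral_le_of_norm_le (by positivity) (ae_of_all _ fun θ _ => h θ)
    (hw.intervalIntegrable _ _)

/-- integration of a trigonometric series -/
theorem avg_tsum {ι : Type*} [Countable ι] [CompleteSpace E] (κ : ι → ℤ) (A : ι → E)
    (hA : Summable fun i => ‖A i‖) :
    HasSum (fun i => if κ i = 0 then A i else 0) (avg fun θ => ∑' i, ee (κ i) θ • A i) := by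
  let f : ι → C(ℝ, E) := fun i => ⟨fun θ => ee (κ i) θ • A i, (continuous_ee _).smul continuous_const⟩
  have hsum : Summable fun i => ‖(f i).restrict (⟨uIcc 0 (2 * Real.pi), isCompact_uIcc⟩ :
      TopologicalSpace.Compacts ℝ)‖ := by
    refine Summable.of_nonneg_of_le (fun i => norm_nonneg _) (fun i => ?_) hA
    rw [ContinuousMap.norm_le _ (norm_nonneg _)]
    intro x
    change ‖ee (κ i) x • A i‖ ≤ ‖A i‖
    rw [norm_smul, norm_ee, one_mul]
  have h := (intervalIntegral.hasSum_intervalIntegral_of_summable_norm hsum).const_smul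
    (2 * Real.pi : ℂ)⁻¹
  have e : (fun i => (2 * Real.pi : ℂ)⁻¹ • ∫ θ in (0 : ℝ)..2 * Real.pi, f i θ) =
      fun i => if κ i = 0 then A i else 0 := by
    funext i
    have : ∫ θ in (0 : ℝ)..2 * Real.pi, f i θ =
        (if κ i = 0 then (2 * Real.pi : ℂ) else 0) • A i := by
      rw [← integral_ee, ← intervalIntegral.integral_smul_const]
      rfl
    rw [this]
    split_ifs
    · rw [smul_smul, inv_mul_cancel₀, one_smul]
      exact mul_ne_zero two_ne_zero (by exact_mod_cast Real.pi_ne_zero)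
    · simp
  rw [e] at h
  exact h

end avg

section product

variable {R : Type*} [NormedRing R] [NormedAlgebra ℂ R] [CompleteSpace R]

omit [CompleteSpace R] in
theorem summable_prod (c : ℕ → ℂ) (hc : Summable fun n => ‖c n‖) (A : ℕ → R)
    (hA : Summable fun n => ‖A n‖) : Summable fun p : ℕ × ℕ => ‖c p.1 • A p.2‖ := by
  have h1 : Summable fun p : ℕ × ℕ => ‖c p.1‖ * ‖A p.2‖ :=
    hc.mul_of_nonneg hA (fun n => norm_nonneg _) (fun n => norm_nonneg _)
  refine h1.congr (fun p => ?_)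
  rw [norm_smul]

theorem conj_tsum_ee (c : ℕ → ℂ) (θ : ℝ) :
    conj (∑' k : ℕ, c k * ee k θ) = ∑' k : ℕ, conj (c k) * ee (-(k : ℤ)) θ := by
  rw [Complex.conj_tsum]
  refine tsum_congr fun k => ?_
  rw [map_mul, conj_ee]

theorem smul_series (κ κ' : ℕ → ℤ) (c : ℕ → ℂ) (hc : Summable fun n => ‖c n‖) (A : ℕ → R)
    (hA : Summable fun n => ‖A n‖) (θ : ℝ) :
    (∑' k : ℕ, c k * ee (κ k) θ) • ∑' n : ℕ, ee (κ' n) θ • A n =
      ∑' p : ℕ × ℕ, ee (κ p.1 + κ' p.2) θ • (c p.1 • A p.2) := by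
  have h1 : Summable fun k : ℕ => ‖c k * ee (κ k) θ‖ := by
    simpa [norm_mul, norm_ee] using hc
  have h2 : Summable fun n : ℕ => ‖ee (κ' n) θ • A n‖ := by
    simpa [norm_smul, norm_ee] using hA
  have h3 := summable_prod (fun k => c k * ee (κ k) θ) h1 (fun n => ee (κ' n) θ • A n) h2
  rw [tsum_smul_tsum h1.of_norm h2.of_norm h3.of_norm]
  refine tsum_congr fun p => ?_
  rw [ee_add, smul_smul, smul_smul]
  congr 1
  ring

/-- `h(ζ)` against a series in `conj ζ` -/
theorem avg_pos (c : ℕ → ℂ) (hc : Summable fun n => ‖c n‖) (A : ℕ → R)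
    (hA : Summable fun n => ‖A n‖) :
    HasSum (fun n => c n • A n)
      (avg (fun θ => (∑' k : ℕ, c k * ee k θ) • ∑' n : ℕ, ee (-(n : ℤ)) θ • A n)) := by
  have h1 := avg_tsum (fun p : ℕ × ℕ => (p.1 : ℤ) + -(p.2 : ℤ)) (fun p => c p.1 • A p.2)
    (summable_prod c hc A hA)
  have e : (fun θ => (∑' k : ℕ, c k * ee k θ) • ∑' n : ℕ, ee (-(n : ℤ)) θ • A n) =
      fun θ => ∑' p : ℕ × ℕ, ee ((p.1 : ℤ) + -(p.2 : ℤ)) θ • (c p.1 • A p.2) := by
    funext θ
    exact smul_series (fun k => (k : ℤ)) (fun n => -(n : ℤ)) c hc A hA θ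
  rw [e]
  have hinj : Function.Injective fun n : ℕ => ((n, n) : ℕ × ℕ) := fun a b h => (Prod.mk.inj h).1
  rw [← hinj.hasSum_iff] at h1
  · refine h1.congr_fun ?_
    intro n
    simp
  · intro p hp
    rw [if_neg]
    intro h
    apply hp
    refine ⟨p.1, ?_⟩
    have : p.1 = p.2 := by omega
    exact Prod.ext rfl this

theorem avg_neg (c : ℕ → ℂ) (hc : Summable fun n => ‖c n‖) (A : ℕ → R)
    (hA : Summable fun n => ‖A n‖) :
    avg (fun θ => conj (∑' k : ℕ, c k * ee k θ) • ∑' n : ℕ, ee (-(n : ℤ)) θ • A n) =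
      conj (c 0) • A 0 := by
  have hc' : Summable fun n => ‖conj (c n)‖ := by simpa using hc
  have h1 := avg_tsum (fun p : ℕ × ℕ => -(p.1 : ℤ) + -(p.2 : ℤ)) (fun p => conj (c p.1) • A p.2)
    (summable_prod _ hc' A hA)
  have e : (fun θ => conj (∑' k : ℕ, c k * ee k θ) • ∑' n : ℕ, ee (-(n : ℤ)) θ • A n) =
      fun θ => ∑' p : ℕ × ℕ, ee (-(p.1 : ℤ) + -(p.2 : ℤ)) θ • (conj (c p.1) • A p.2) := by
    funext θ
    rw [conj_tsum_ee]
    exact smul_series (fun k => -(k : ℤ)) (fun n => -(n : ℤ)) _ hc' A hA θ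
  rw [e]
  refine h1.unique ?_
  have h2 := hasSum_single (f := fun p : ℕ × ℕ => if -(p.1 : ℤ) + -(p.2 : ℤ) = 0 then
    conj (c p.1) • A p.2 else 0) (0, 0) (fun p hp => by
      rw [if_neg]
      intro h
      apply hp
      have h1 : p.1 = 0 := by omega
      have h2 : p.2 = 0 := by omega
      exact Prod.ext h1 h2)
  simpa using h2

end product

end C3N.H75
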