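import Pool.Agent.Lib.MP_c3d375_an.Neg.H75.Avg

/-!
# Mean values of products of holomorphic functions with resolvents
-/

open Complex Metric Set Filter Topology MeasureTheory ComplexConjugate
open Pool.Agent.Lib.MP_c3d375_an (ee ee_zero ee_add norm_ee continuous_ee conj_ee ee_natCast integral_ee)

namespace C3N.H75

section scalar

variable {h : ℂ → ℂ} {r : ℝ}

theorem ee_mem_ball (hr : 1 < r) (k : ℤ) (θ : ℝ) : ee k θ ∈ ball (0 : ℂ) r := by
  rw [mem_ball_zero_iff, norm_ee]; exact hr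

theorem eval_ee' (hr : 1 < r) (hh : DifferentiableOn ℂ h (ball 0 r)) (θ : ℝ) :
    h (ee 1 θ) = ∑' k : ℕ, cf h k * ee k θ := by
  rw [← (hasSum_cf' hh (ee_mem_ball hr 1 θ)).tsum_eq]
  refine tsum_congr fun k => ?_
  rw [ee_natCast]

theorem continuous_eval_ee (hr : 1 < r) (hh : DifferentiableOn ℂ h (ball 0 r)) :
    Continuous fun θ => h (ee 1 θ) :=
  hh.continuousOn.comp_continuous (continuous_ee 1) (ee_mem_ball hr 1)

theorem one_sub_ee_ne {a : ℝ} (ha : |a| < 1) (k : ℤ) (θ : ℝ) : (1 : ℂ) - a * ee k θ ≠ 0 := by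
  intro h0
  have h1 : ‖(a : ℂ) * ee k θ‖ = 1 := by rw [← sub_eq_zero.1 h0, norm_one]
  rw [norm_mul, norm_ee, mul_one, Complex.norm_real, Real.norm_eq_abs] at h1
  linarith

theorem norm_inv_one_sub_ee {a : ℝ} (ha0 : 0 ≤ a) (ha : a < 1) (k : ℤ) (θ : ℝ) :
    ‖((1 : ℂ) - a * ee k θ)⁻¹‖ ≤ (1 - a)⁻¹ := by
  rw [norm_inv]
  refine inv_anti₀ (by linarith) ?_
  have h1 : ‖(a : ℂ) * ee k θ‖ = a := by
    rw [norm_mul, norm_ee, mul_one, Complex.norm_real, Real.norm_of_nonneg ha0]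
  have h2 := norm_sub_norm_le (1 : ℂ) (a * ee k θ)
  rw [norm_one, h1] at h2
  exact h2

variable {R : Type*} [NormedRing R] [NormedAlgebra ℂ R] [CompleteSpace R]

theorem mean_pos (hr : 1 < r) (hh : DifferentiableOn ℂ h (ball 0 r)) (A : ℕ → R)
    (hA : Summable fun n => ‖A n‖) :
    HasSum (fun n => cf h n • A n)
      (avg (fun θ => h (ee 1 θ) • ∑' n : ℕ, ee (-(n : ℤ)) θ • A n)) := by
  have := avg_pos (cf h) (summable_norm_cf hr hh) A hA
  simp_rw [← eval_ee' hr hh] at this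
  exact this

theorem mean_neg (hr : 1 < r) (hh : DifferentiableOn ℂ h (ball 0 r)) (A : ℕ → R)
    (hA : Summable fun n => ‖A n‖) :
    avg (fun θ => conj (h (ee 1 θ)) • ∑' n : ℕ, ee (-(n : ℤ)) θ • A n) = conj (h 0) • A 0 := by
  have := avg_neg (cf h) (summable_norm_cf hr hh) A hA
  simp_rw [← eval_ee' hr hh, cf_zero'] at this
  exact this

theorem ee_neg_pow (n : ℕ) (θ : ℝ) : ee (-(n : ℤ)) θ = ee (-1) θ ^ n := by
  rw [← conj_ee, ee_natCast, map_pow, conj_ee]

/-- mean of `h` -/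
theorem mean_h (hr : 1 < r) (hh : DifferentiableOn ℂ h (ball 0 r)) :
    avg (fun θ => h (ee 1 θ)) = h 0 := by
  have h1 := mean_pos (R := ℂ) hr hh (fun n => if n = 0 then 1 else 0)
    (by apply (hasSum_single 0 _).summable; intro n hn; simp [hn])
  have h2 : ∀ θ : ℝ, ∑' n : ℕ, ee (-(n : ℤ)) θ • (if n = 0 then (1 : ℂ) else 0) = 1 := by
    intro θ
    rw [tsum_eq_single 0]
    · simp [ee_zero]
    · intro n hn; simp [hn]
  simp_rw [h2, smul_eq_mul, mul_one] at h1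
  have h3 := hasSum_single (f := fun n => cf h n * (if n = 0 then (1 : ℂ) else 0)) 0
    (fun n hn => by simp [hn])
  have h4 := h1.unique h3
  rw [h4]; simp [cf_zero']

theorem mean_h_conj (hr : 1 < r) (hh : DifferentiableOn ℂ h (ball 0 r)) :
    avg (fun θ => conj (h (ee 1 θ))) = conj (h 0) := by
  rw [avg_conj, mean_h hr hh]

/-- the kernel `a ζ / (1 - a ζ)²` -/
noncomputable def kr (a : ℝ) (θ : ℝ) : ℂ := a * ee 1 θ / (1 - a * ee 1 θ) ^ 2

/-- the kernel `a ζ / (1 - a ζ)` -/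
noncomputable def lr (a : ℝ) (θ : ℝ) : ℂ := a * ee 1 θ / (1 - a * ee 1 θ)

theorem norm_a_ee {a : ℝ} (ha0 : 0 ≤ a) (k : ℤ) (θ : ℝ) : ‖(a : ℂ) * ee k θ‖ = a := by
  rw [norm_mul, norm_ee, mul_one, Complex.norm_real, Real.norm_of_nonneg ha0]

theorem conj_kr {a : ℝ} (ha0 : 0 ≤ a) (ha : a < 1) (θ : ℝ) :
    conj (kr a θ) = ∑' n : ℕ, ee (-(n : ℤ)) θ • ((n : ℂ) * a ^ n) := by
  have h1 := hasSum_coe_mul_geometric_of_norm_lt_one (𝕜 := ℂ) (r := (a : ℂ) * ee (-1) θ)
    (by rw [norm_a_ee ha0]; exact ha)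
  have e : (fun n : ℕ => (n : ℂ) * ((a : ℂ) * ee (-1) θ) ^ n) =
      fun n : ℕ => ee (-(n : ℤ)) θ • ((n : ℂ) * a ^ n) := by
    funext n
    rw [ee_neg_pow, smul_eq_mul, mul_pow]; ring
  rw [e] at h1
  rw [h1.tsum_eq, kr, map_div₀, map_pow, map_sub, map_mul, conj_ofReal, conj_ee, map_one]

theorem conj_lr {a : ℝ} (ha0 : 0 ≤ a) (ha : a < 1) (θ : ℝ) :
    conj (lr a θ) = ∑' n : ℕ, ee (-(n : ℤ)) θ • (if n = 0 then (0 : ℂ) else a ^ n) := by
  have h1 := hasSum_geometric_of_norm_lt_one (ξ := (a : ℂ) * ee (-1) θ)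
    (by rw [norm_a_ee ha0]; exact ha)
  have h2 := (h1.mul_left ((a : ℂ) * ee (-1) θ))
  have e : (fun n : ℕ => (a : ℂ) * ee (-1) θ * ((a : ℂ) * ee (-1) θ) ^ n) =
      fun n : ℕ => (fun m : ℕ => ee (-(m : ℤ)) θ • (if m = 0 then (0 : ℂ) else a ^ m)) (n + 1) := by
    funext n
    simp only
    rw [if_neg (Nat.succ_ne_zero n), ee_neg_pow, smul_eq_mul, ← pow_succ', mul_pow]; ring
  rw [e] at h2
  have h3 := (hasSum_nat_add_iff (f := fun m : ℕ => ee (-(m : ℤ)) θ •
    (if m = 0 then (0 : ℂ) else a ^ m)) 1).1 h2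
  rw [h3.tsum_eq, lr, map_div₀, map_sub, map_mul, conj_ofReal, conj_ee, map_one]
  simp [div_eq_mul_inv]

theorem summable_n_geom {a : ℝ} (ha0 : 0 ≤ a) (ha : a < 1) :
    Summable fun n : ℕ => ‖((n : ℂ) * (a : ℂ) ^ n)‖ := by
  have h1 := summable_norm_pow_mul_geometric_of_norm_lt_one (R := ℂ) 1 (r := (a : ℂ))
    (by rw [Complex.norm_real, Real.norm_of_nonneg ha0]; exact ha)
  simpa using h1

theorem summable_geom' {a : ℝ} (ha0 : 0 ≤ a) (ha : a < 1) :
    Summable fun n : ℕ => ‖(if n = 0 then (0 : ℂ) else (a : ℂ) ^ n)‖ := by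
  refine Summable.of_nonneg_of_le (fun n => norm_nonneg _) (fun n => ?_)
    (summable_geometric_of_lt_one ha0 ha)
  split_ifs
  · simp; positivity
  · rw [norm_pow, Complex.norm_real, Real.norm_of_nonneg ha0]

theorem hd_of (hr : 1 < r) (hh : DifferentiableOn ℂ h (ball 0 r)) : HD h :=
  hh.mono (ball_subset_ball hr.le)

theorem a_mem {a : ℝ} (ha0 : 0 ≤ a) (ha : a < 1) : (a : ℂ) ∈ ball (0 : ℂ) 1 := by
  rw [mem_ball_zero_iff, Complex.norm_real, Real.norm_of_nonneg ha0]; exact ha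

theorem continuous_kr {a : ℝ} (ha0 : 0 ≤ a) (ha : a < 1) : Continuous (kr a) := by
  unfold kr
  refine Continuous.div (continuous_const.mul (continuous_ee 1)) ?_
    (fun θ => pow_ne_zero 2 (one_sub_ee_ne (by rwa [abs_of_nonneg ha0]) 1 θ))
  exact (continuous_const.sub (continuous_const.mul (continuous_ee 1))).pow 2

theorem mean_kr (hr : 1 < r) (hh : DifferentiableOn ℂ h (ball 0 r)) {a : ℝ} (ha0 : 0 ≤ a)
    (ha : a < 1) : avg (fun θ => (h (ee 1 θ) + conj (h (ee 1 θ))) * kr a θ) =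
      a * conj (deriv h a) := by
  have h1 := mean_pos (R := ℂ) hr hh _ (summable_n_geom ha0 ha)
  have h2 := mean_neg (R := ℂ) hr hh _ (summable_n_geom ha0 ha)
  simp_rw [← conj_kr ha0 ha, smul_eq_mul] at h1 h2
  have h3 := h1.unique (hasSum_cf_deriv (hd_of hr hh) (a_mem ha0 ha))
  have hc := continuous_eval_ee hr hh
  have hk := continuous_kr ha0 ha
  have e1 : ∀ θ, (h (ee 1 θ) + conj (h (ee 1 θ))) * kr a θ =
      conj (conj (h (ee 1 θ)) * conj (kr a θ)) + conj (h (ee 1 θ) * conj (kr a θ)) := by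
    intro θ
    simp only [map_mul, Complex.conj_conj]; ring
  rw [avg_congr e1, avg_add, avg_conj, avg_conj, h2, h3]
  · simp
  · exact continuous_conj.comp ((continuous_conj.comp hc).mul (continuous_conj.comp hk))
  · exact continuous_conj.comp (hc.mul (continuous_conj.comp hk))

theorem continuous_lr {a : ℝ} (ha0 : 0 ≤ a) (ha : a < 1) : Continuous (lr a) := by
  unfold lr
  refine Continuous.div (continuous_const.mul (continuous_ee 1)) ?_
    (fun θ => one_sub_ee_ne (by rwa [abs_of_nonneg ha0]) 1 θ)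
  exact (continuous_const.sub (continuous_const.mul (continuous_ee 1)))

theorem mean_lr (hr : 1 < r) (hh : DifferentiableOn ℂ h (ball 0 r)) {a : ℝ} (ha0 : 0 ≤ a)
    (ha : a < 1) : avg (fun θ => (h (ee 1 θ) + conj (h (ee 1 θ))) * lr a θ) =
      conj (h a) - conj (h 0) := by
  have h1 := mean_pos (R := ℂ) hr hh _ (summable_geom' ha0 ha)
  have h2 := mean_neg (R := ℂ) hr hh _ (summable_geom' ha0 ha)
  simp_rw [← conj_lr ha0 ha, smul_eq_mul] at h1 h2
  have h5 : HasSum (fun n => cf h n * (if n = 0 then (0 : ℂ) else (a : ℂ) ^ n)) (h a - h 0) := by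
    have h6 := hasSum_cf (hd_of hr hh) (a_mem ha0 ha)
    have h7 := hasSum_single (f := fun n => if n = 0 then h 0 else 0) 0 (fun n hn => by simp [hn])
    have h8 := h6.sub h7
    simp only [if_true] at h8
    refine h8.congr_fun fun n => ?_
    split_ifs with hn
    · subst hn; simp [cf_zero']
    · simp
  have h3 := h1.unique h5
  have hc := continuous_eval_ee hr hh
  have hk := continuous_lr ha0 ha
  have e1 : ∀ θ, (h (ee 1 θ) + conj (h (ee 1 θ))) * lr a θ =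
      conj (conj (h (ee 1 θ)) * conj (lr a θ)) + conj (h (ee 1 θ) * conj (lr a θ)) := by
    intro θ
    simp only [map_mul, Complex.conj_conj]; ring
  rw [avg_congr e1, avg_add, avg_conj, avg_conj, h2, h3]
  · simp
  · exact continuous_conj.comp ((continuous_conj.comp hc).mul (continuous_conj.comp hk))
  · exact continuous_conj.comp (hc.mul (continuous_conj.comp hk))

end scalar

section operator

variable {H : Type*} [NormedAddCommGroup H] [InnerProductSpace ℂ H] [CompleteSpace H]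
  {S : H →L[ℂ] H} {h : ℂ → ℂ} {r : ℝ}

/-- the resolvent on the circle -/
noncomputable def rz (S : H →L[ℂ] H) (θ : ℝ) : H →L[ℂ] H := phi S fun z => (1 - ee (-1) θ * z)⁻¹

theorem rz_eq (hS : SR S) (θ : ℝ) : rz S θ = ∑' n : ℕ, ee (-(n : ℤ)) θ • S ^ n := by
  rw [rz, ← (hS.hasSum_resolvent (l := ee (-1) θ) (norm_ee _ _).le).tsum_eq]
  refine tsum_congr fun n => ?_
  rw [ee_neg_pow]

omit [CompleteSpace H] in
theorem SR.summable_pow (hS : SR S) : Summable fun n : ℕ => ‖S ^ n‖ := by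
  obtain ⟨C, s, hC, hs0, hs1, hb⟩ := hS
  exact Summable.of_nonneg_of_le (fun n => norm_nonneg _) hb
    ((summable_geometric_of_lt_one hs0.le hs1).mul_left _)

theorem continuous_rz (hS : SR S) : Continuous (rz S) := by
  have : rz S = fun θ => ∑' n : ℕ, ee (-(n : ℤ)) θ • S ^ n := funext fun θ => rz_eq hS θ
  rw [this]
  refine continuous_tsum (fun n => (continuous_ee _).smul continuous_const) hS.summable_pow
    (fun n θ => ?_)
  rw [norm_smul, norm_ee, one_mul]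

theorem mean_rz_pos (hS : SR S) (hr : 1 < r) (hh : DifferentiableOn ℂ h (ball 0 r)) :
    avg (fun θ => h (ee 1 θ) • rz S θ) = phi S h := by
  have h1 := mean_pos hr hh _ hS.summable_pow
  simp_rw [← rz_eq hS] at h1
  exact h1.unique (hS.summable (hd_of hr hh)).hasSum

theorem mean_rz_neg (hS : SR S) (hr : 1 < r) (hh : DifferentiableOn ℂ h (ball 0 r)) :
    avg (fun θ => conj (h (ee 1 θ)) • rz S θ) = conj (h 0) • (1 : H →L[ℂ] H) := by
  have h1 := mean_neg hr hh _ hS.summable_pow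
  simp_rw [← rz_eq hS, pow_zero] at h1
  exact h1

theorem mean_rz (hS : SR S) (hr : 1 < r) (hh : DifferentiableOn ℂ h (ball 0 r)) :
    avg (fun θ => (h (ee 1 θ) + conj (h (ee 1 θ))) • rz S θ) =
      phi S h + conj (h 0) • (1 : H →L[ℂ] H) := by
  have hc := continuous_eval_ee hr hh
  have hR := continuous_rz hS
  have h1 := avg_add (F := fun θ => h (ee 1 θ) • rz S θ)
    (G := fun θ => conj (h (ee 1 θ)) • rz S θ) (hc.smul hR) ((continuous_conj.comp hc).smul hR)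
  rw [← mean_rz_pos hS hr hh, ← mean_rz_neg hS hr hh, ← h1]
  exact avg_congr fun θ => add_smul _ _ _

/-- the coefficients of `(1 - a conj ζ)⁻¹ (1 - conj ζ S)⁻¹` -/
noncomputable def an (a : ℝ) (S : H →L[ℂ] H) (n : ℕ) : H →L[ℂ] H :=
  ∑ kl ∈ Finset.HasAntidiagonal.antidiagonal n, (a : ℂ) ^ kl.1 • S ^ kl.2

theorem rz_mul_geom (hS : SR S) {a : ℝ} (ha0 : 0 ≤ a) (ha : a < 1) (θ : ℝ) :
    (1 - a * ee (-1) θ)⁻¹ • rz S θ = ∑' n : ℕ, ee (-(n : ℤ)) θ • an a S n := by
  have h1 : Summable fun n : ℕ => ‖(a * ee (-1) θ) ^ n • (1 : H →L[ℂ] H)‖ := by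
    refine Summable.of_nonneg_of_le (fun n => norm_nonneg _) (fun n => ?_)
      ((summable_geometric_of_lt_one ha0 ha).mul_right ‖(1 : H →L[ℂ] H)‖)
    rw [norm_smul, norm_pow, norm_a_ee ha0]
  have h2 : Summable fun n : ℕ => ‖ee (-(n : ℤ)) θ • S ^ n‖ := by
    refine hS.summable_pow.congr fun n => ?_
    rw [norm_smul, norm_ee, one_mul]
  have h3 : ∑' n : ℕ, (a * ee (-1) θ) ^ n • (1 : H →L[ℂ] H) =
      (1 - a * ee (-1) θ)⁻¹ • (1 : H →L[ℂ] H) := by
    rw [Summable.tsum_smul_const, tsum_geometric_of_norm_lt_one (by rw [norm_a_ee ha0]; exact ha)]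
    exact summable_geometric_of_norm_lt_one (by rw [norm_a_ee ha0]; exact ha)
  have h4 := tsum_mul_tsum_eq_tsum_sum_antidiagonal_of_summable_norm h1 h2
  rw [h3, ← rz_eq hS, smul_one_mul] at h4
  rw [h4]
  refine tsum_congr fun n => ?_
  rw [an, Finset.smul_sum]
  refine Finset.sum_congr rfl fun kl hkl => ?_
  have h5 := Finset.HasAntidiagonal.mem_antidiagonal.1 hkl
  rw [smul_one_mul, mul_pow, ← h5, smul_smul, smul_smul, ee_neg_pow, ee_neg_pow, pow_add]
  congr 1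
  ring

omit [CompleteSpace H] in
theorem an_zero (a : ℝ) (S : H →L[ℂ] H) : an a S 0 = 1 := by
  simp [an]

theorem summable_an (hS : SR S) {a : ℝ} (ha0 : 0 ≤ a) (ha : a < 1) :
    Summable fun n => ‖an a S n‖ := by
  have h1 : Summable fun n : ℕ => ‖(a : ℂ) ^ n • (1 : H →L[ℂ] H)‖ := by
    refine Summable.of_nonneg_of_le (fun n => norm_nonneg _) (fun n => ?_)
      ((summable_geometric_of_lt_one ha0 ha).mul_right ‖(1 : H →L[ℂ] H)‖)
    rw [norm_smul, norm_pow, Complex.norm_real, Real.norm_of_nonneg ha0]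
  have h2 := summable_norm_sum_mul_antidiagonal_of_summable_norm h1 hS.summable_pow
  refine h2.congr fun n => ?_
  rw [an]
  congr 1

/-- the scalar version of `an` -/
noncomputable def gn (a : ℝ) (n : ℕ) (z : ℂ) : ℂ :=
  ∑ kl ∈ Finset.HasAntidiagonal.antidiagonal n, (a : ℂ) ^ kl.1 * z ^ kl.2

theorem hd_gn (a : ℝ) (n : ℕ) : HD (gn a n) := by
  unfold gn
  exact hd_sum _ fun kl => HD.smul _ (HD.id.pow kl.2)

theorem phi_gn (hS : SR S) (a : ℝ) (n : ℕ) : phi S (gn a n) = an a S n := by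
  have e := hS.phi_sum (f := fun (kl : ℕ × ℕ) (w : ℂ) => (a : ℂ) ^ kl.1 * w ^ kl.2)
    (Finset.HasAntidiagonal.antidiagonal n) (fun kl => HD.smul _ (HD.id.pow kl.2))
  have e' : phi S (gn a n) = ∑ kl ∈ Finset.HasAntidiagonal.antidiagonal n,
      phi S (fun w : ℂ => (a : ℂ) ^ kl.1 * w ^ kl.2) := e
  rw [e', an]
  refine Finset.sum_congr rfl fun kl _ => ?_
  rw [hS.phi_smul _ (HD.id.pow kl.2), hS.phi_pow HD.id, phi_id]

theorem gn_mul_sub (a : ℝ) (n : ℕ) (z : ℂ) : gn a n z * (z - a) = z ^ (n + 1) - (a : ℂ) ^ (n + 1) := by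
  have h1 := geom_sum₂_mul (a : ℂ) z (n + 1)
  rw [gn, Finset.Nat.sum_antidiagonal_eq_sum_range_succ_mk]
  have h2 : (∑ i ∈ Finset.range (n + 1), (a : ℂ) ^ i * z ^ (n + 1 - 1 - i)) =
      ∑ k ∈ Finset.range n.succ, (a : ℂ) ^ k * z ^ (n - k) := by
    rfl
  rw [h2] at h1
  linear_combination -h1

theorem gn_self (a : ℝ) (n : ℕ) : gn a n a = (n + 1) * (a : ℂ) ^ n := by
  rw [gn, Finset.Nat.sum_antidiagonal_eq_sum_range_succ_mk]
  have : ∀ k ∈ Finset.range n.succ, (a : ℂ) ^ k * (a : ℂ) ^ (n - k) = (a : ℂ) ^ n := by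
    intro k hk
    rw [← pow_add, Nat.add_sub_of_le (Nat.lt_succ_iff.1 (Finset.mem_range.1 hk))]
  simp only
  rw [Finset.sum_congr rfl this]
  simp

theorem norm_gn_le {a : ℝ} (ha0 : 0 ≤ a) (ha : a < 1) (n : ℕ) {z : ℂ} (hz : z ∈ ball (0 : ℂ) 1) :
    ‖gn a n z‖ ≤ (1 - a)⁻¹ := by
  rw [gn, Finset.Nat.sum_antidiagonal_eq_sum_range_succ_mk]
  refine (norm_sum_le _ _).trans ?_
  have hz1 : ‖z‖ ≤ 1 := by simpa using (mem_ball_zero_iff.1 hz).le
  have h1 : ∀ k ∈ Finset.range n.succ, ‖(a : ℂ) ^ k * z ^ (n - k)‖ ≤ a ^ k := by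
    intro k _
    rw [norm_mul, norm_pow, norm_pow, Complex.norm_real, Real.norm_of_nonneg ha0]
    have := pow_le_one₀ (n := n - k) (norm_nonneg z) hz1
    have h2 : 0 ≤ a ^ k := by positivity
    nlinarith
  refine (Finset.sum_le_sum h1).trans ?_
  have h3 := Summable.sum_le_tsum (Finset.range n.succ) (fun k _ => by positivity)
    (summable_geometric_of_lt_one ha0 ha)
  rwa [tsum_geometric_of_lt_one ha0 ha] at h3

theorem hasSum_gn (hr : 1 < r) (hh : DifferentiableOn ℂ h (ball 0 r)) {a : ℝ} (ha0 : 0 ≤ a)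
    (ha : a < 1) {z : ℂ} (hz : z ∈ ball (0 : ℂ) 1) :
    HasSum (fun n => cf h n * gn a n z) (h z + a * dslope h a z) := by
  have hd := hd_of hr hh
  have ham := a_mem ha0 ha
  by_cases hza : z = a
  · subst hza
    rw [dslope_same]
    have h1 := (hasSum_cf hd ham).add (hasSum_cf_deriv hd ham)
    refine h1.congr_fun fun n => ?_
    rw [gn_self]; ring
  · rw [dslope_of_ne _ hza, slope]
    have hne : z - a ≠ 0 := sub_ne_zero.2 hza
    have h1 := ((hasSum_cf hd hz).mul_left z).sub ((hasSum_cf hd ham).mul_left (a : ℂ))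
    have h2 := h1.mul_right (z - a)⁻¹
    have e : (fun n => (z * (cf h n * z ^ n) - a * (cf h n * (a : ℂ) ^ n)) * (z - a)⁻¹) =
        fun n => cf h n * gn a n z := by
      funext n
      have := gn_mul_sub a n z
      rw [← div_eq_mul_inv, div_eq_iff hne, mul_assoc, this, pow_succ, pow_succ]; ring
    rw [e] at h2
    have e3 : h z + a * ((z - a)⁻¹ • (h z - h a)) = (z * h z - a * h a) * (z - a)⁻¹ := by
      rw [smul_eq_mul]
      field_simp
      ring
    rw [← e3] at h2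
    exact h2

theorem mean_geom (hS : SR S) (hr : 1 < r) (hh : DifferentiableOn ℂ h (ball 0 r)) {a : ℝ}
    (ha0 : 0 ≤ a) (ha : a < 1) :
    avg (fun θ => (h (ee 1 θ) + conj (h (ee 1 θ))) • ((1 - a * ee (-1) θ)⁻¹ • rz S θ)) =
      phi S (fun z => h z + a * dslope h a z) + conj (h 0) • (1 : H →L[ℂ] H) := by
  have hc := continuous_eval_ee hr hh
  have hR := continuous_rz hS
  have hg : Continuous fun θ => (1 - (a : ℂ) * ee (-1) θ)⁻¹ :=
    (continuous_const.sub (continuous_const.mul (continuous_ee _))).inv₀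
      (one_sub_ee_ne (by rwa [abs_of_nonneg ha0]) (-1))
  have h1 := mean_pos hr hh _ (summable_an hS ha0 ha)
  have h2 := mean_neg hr hh _ (summable_an hS ha0 ha)
  simp_rw [← rz_mul_geom hS ha0 ha] at h1 h2
  rw [an_zero] at h2
  have h3 := hS.phi_tsum (f := fun n z => cf h n * gn a n z)
    (fun n => HD.smul _ (hd_gn a n)) ((summable_norm_cf hr hh).mul_right (1 - a)⁻¹)
    (fun n z hz => by
      rw [norm_mul]
      exact mul_le_mul_of_nonneg_left (norm_gn_le ha0 ha n hz) (norm_nonneg _))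
  have h4 : (fun n => phi S fun z => cf h n * gn a n z) = fun n => cf h n • an a S n := by
    funext n
    rw [hS.phi_smul _ (hd_gn a n), phi_gn hS]
  rw [h4] at h3
  have h5 : phi S (fun z => ∑' n, cf h n * gn a n z) = phi S (fun z => h z + a * dslope h a z) :=
    phi_congr fun z hz => (hasSum_gn hr hh ha0 ha hz).tsum_eq
  rw [h5] at h3
  have h6 := h1.unique h3
  have h7 := avg_add (F := fun θ => h (ee 1 θ) • ((1 - (a : ℂ) * ee (-1) θ)⁻¹ • rz S θ))
    (G := fun θ => conj (h (ee 1 θ)) • ((1 - (a : ℂ) * ee (-1) θ)⁻¹ • rz S θ))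
    (hc.smul (hg.smul hR)) ((continuous_conj.comp hc).smul (hg.smul hR))
  rw [← h6, ← h2, ← h7]
  exact avg_congr fun θ => add_smul _ _ _

end operator

end C3N.H75
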